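import Pool.Agent.X181.AC.Min

namespace Pool.Agent.X181.AC

/-- uniform letter frequency -/
def HasFreq (x : ℕ → Bool) (α : ℝ) : Prop :=
  ∀ ε > 0, ∃ n0 : ℕ, ∀ m ≥ n0, ∀ i : ℕ, |(ones x i m : ℝ) / m - α| < ε

theorem freq_le {x : ℕ → Bool} {α : ℝ} (h : HasFreq x α) (m : ℕ) :
    ∃ j, (ones x j m : ℝ) ≤ α * m := by
  by_contra hcon
  push Not at hcon
  have hm : 0 < m := by
    rcases Nat.eq_zero_or_pos m with h0 | h0
    · subst h0
      have := hcon 0
      simp [ones_zero] at this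
    · exact h0
  have hmr : (0 : ℝ) < m := by exact_mod_cast hm
  set u := sInf (Set.range fun j => ones x j m) with hu
  have hmem : u ∈ Set.range fun j => ones x j m := Nat.sInf_mem ⟨_, ⟨0, rfl⟩⟩
  have hlb : ∀ j, u ≤ ones x j m := fun j => Nat.sInf_le ⟨j, rfl⟩
  obtain ⟨j0, hj0⟩ := hmem
  have hu1 : α * m < u := by
    have := hcon j0
    simp only at hj0
    rw [hj0] at this
    exact this
  have hε : 0 < (u : ℝ) / m - α := by
    rw [sub_pos, lt_div_iff₀ hmr]; exact hu1
  obtain ⟨n0, hn0⟩ := h _ hε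
  have h1 := hn0 (m * (n0 + 1)) (by nlinarith) 0
  have h2 := ones_mul_ge x 0 m u (fun i _ => hlb i) (n0 + 1) 0 le_rfl
  have h3 : ((n0 + 1 : ℕ) : ℝ) * u ≤ ones x 0 (m * (n0 + 1)) := by exact_mod_cast h2
  have h4 := (abs_lt.1 h1).2
  have h5 : (u : ℝ) / m ≤ (ones x 0 (m * (n0 + 1)) : ℝ) / ((m * (n0 + 1) : ℕ) : ℝ) := by
    rw [div_le_div_iff₀ hmr (by positivity)]
    push_cast at h3 ⊢
    nlinarith
  linarith

theorem freq_ge {x : ℕ → Bool} {α : ℝ} (h : HasFreq x α) (m : ℕ) :
    ∃ j, α * m ≤ (ones x j m : ℝ) := by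
  by_contra hcon
  push Not at hcon
  have hm : 0 < m := by
    rcases Nat.eq_zero_or_pos m with h0 | h0
    · subst h0
      have := hcon 0
      simp [ones_zero] at this
    · exact h0
  have hmr : (0 : ℝ) < m := by exact_mod_cast hm
  have hbdd : BddAbove (Set.range fun j => ones x j m) := ⟨m, by rintro _ ⟨j, rfl⟩; exact ones_le _ _ _⟩
  set u := sSup (Set.range fun j => ones x j m) with hu
  have hmem : u ∈ Set.range fun j => ones x j m := Nat.sSup_mem ⟨_, ⟨0, rfl⟩⟩ hbdd
  have hub : ∀ j, ones x j m ≤ u := fun j => le_csSup hbdd ⟨j, rfl⟩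
  obtain ⟨j0, hj0⟩ := hmem
  have hu1 : (u : ℝ) < α * m := by
    have := hcon j0
    simp only at hj0
    rw [hj0] at this
    exact this
  have hε : 0 < α - (u : ℝ) / m := by
    rw [sub_pos, div_lt_iff₀ hmr]; exact hu1
  obtain ⟨n0, hn0⟩ := h _ hε
  have h1 := hn0 (m * (n0 + 1)) (by nlinarith) 0
  have h2 := ones_mul_le x 0 m u (fun i _ => hub i) (n0 + 1) 0 le_rfl
  have h3 : (ones x 0 (m * (n0 + 1)) : ℝ) ≤ ((n0 + 1 : ℕ) : ℝ) * u := by exact_mod_cast h2
  have h4 := (abs_lt.1 h1).1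
  have h5 : (ones x 0 (m * (n0 + 1)) : ℝ) / ((m * (n0 + 1) : ℕ) : ℝ) ≤ (u : ℝ) / m := by
    rw [div_le_div_iff₀ (by positivity) hmr]
    push_cast at h3 ⊢
    nlinarith
  linarith

theorem freq_mem {x : ℕ → Bool} {α : ℝ} (h : HasFreq x α) : 0 ≤ α ∧ α ≤ 1 := by
  obtain ⟨j, hj⟩ := freq_le h 1
  obtain ⟨j', hj'⟩ := freq_ge h 1
  have h1 : (ones x j' 1 : ℝ) ≤ 1 := by exact_mod_cast ones_le x j' 1
  have h2 : (0 : ℝ) ≤ ones x j 1 := Nat.cast_nonneg _
  constructor
  · simpa using h2.trans hj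
  · simpa using hj'.trans h1

/-- the word coded by the floor of a slowly increasing function -/
noncomputable def flWord (t : ℕ → ℝ) : ℕ → Bool := fun i => decide (⌊t i⌋ < ⌊t (i + 1)⌋)

theorem ones_flWord (t : ℕ → ℝ) (h0 : ∀ j, t j ≤ t (j + 1)) (h1 : ∀ j, t (j + 1) ≤ t j + 1)
    (i m : ℕ) : (ones (flWord t) i m : ℤ) = ⌊t (i + m)⌋ - ⌊t i⌋ := by
  induction m with
  | zero => simp [ones_zero]
  | succ m ih =>
    rw [ones_succ]
    have a0 : ⌊t (i + m)⌋ ≤ ⌊t (i + m + 1)⌋ := Int.floor_le_floor (h0 _)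
    have a1 : ⌊t (i + m + 1)⌋ ≤ ⌊t (i + m)⌋ + 1 := by
      rw [← Int.floor_add_one]; exact Int.floor_le_floor (h1 _)
    have e : i + (m + 1) = i + m + 1 := by ring
    rw [e]
    by_cases hc : ⌊t (i + m)⌋ < ⌊t (i + m + 1)⌋
    · have : flWord t (i + m) = true := by simp [flWord, hc]
      rw [if_pos this]; push_cast; omega
    · have : ¬ flWord t (i + m) = true := by simp [flWord, hc]
      rw [if_neg this]; push_cast; omega

/-- the family of the unbounded case -/
def Z1 (x : ℕ → Bool) (α l : ℝ) : Set (ℕ → Bool) :=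
  {z | z ∈ abClosure x ∧ ∃ y ∈ Hull x, ∀ i m : ℕ,
    |(ones z i m : ℝ) - (l * ones y i m + (1 - l) * (α * m))| ≤ 1}

theorem Z1_closed (x : ℕ → Bool) (α l : ℝ) : IsClosed (Z1 x α l) := by
  set C : Set ((ℕ → Bool) × (ℕ → Bool)) := {p | p.1 ∈ Hull x} ∩ {p | p.2 ∈ abClosure x} ∩
    ⋂ i : ℕ, ⋂ m : ℕ, {p | |(ones p.2 i m : ℝ) - (l * ones p.1 i m + (1 - l) * (α * m))| ≤ 1}
    with hC
  have hCc : IsClosed C := by
    refine (((isClosed_hull x).preimage continuous_fst).inter
      ((isClosed_abClosure x).preimage continuous_snd)).inter ?_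
    refine isClosed_iInter fun i => isClosed_iInter fun m => ?_
    refine isClosed_le ?_ continuous_const
    refine continuous_abs.comp ?_
    exact ((continuous_ones i m).comp continuous_snd).sub
      ((continuous_const.mul ((continuous_ones i m).comp continuous_fst)).add continuous_const)
  have himg : Z1 x α l = Prod.snd '' C := by
    ext z
    constructor
    · rintro ⟨hz, y, hy, h⟩
      refine ⟨(y, z), ⟨⟨hy, hz⟩, ?_⟩, rfl⟩
      rw [Set.mem_iInter]; intro i
      rw [Set.mem_iInter]; intro m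
      exact h i m
    · rintro ⟨⟨y, z'⟩, ⟨⟨hy, hz⟩, h⟩, rfl⟩
      refine ⟨hz, y, hy, fun i m => ?_⟩
      rw [Set.mem_iInter] at h
      have h1 := h i
      rw [Set.mem_iInter] at h1
      exact h1 m
  rw [himg]
  exact (hCc.isCompact.image continuous_snd).isClosed

theorem Z1_inv {x : ℕ → Bool} {α l : ℝ} (h : HasFreq x α) (hl0 : 0 ≤ l) (hl1 : l ≤ 1) :
    Inv (Z1 x α l) := by
  obtain ⟨ha0, ha1⟩ := freq_mem h
  refine ⟨?_, Z1_closed x α l, ?_⟩
  · -- nonempty
    set t : ℕ → ℝ := fun i => l * ones x 0 i + (1 - l) * (α * i) with ht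
    have htd : ∀ i m : ℕ, t (i + m) = t i + (l * ones x i m + (1 - l) * (α * m)) := by
      intro i m
      simp only [ht]
      rw [ones_add x 0 i m, Nat.zero_add]
      push_cast
      ring
    have hstep : ∀ j, t (j + 1) = t j + (l * ones x j 1 + (1 - l) * α) := by
      intro j
      rw [htd j 1]; simp
    have hx1 : ∀ j, (ones x j 1 : ℝ) ≤ 1 := fun j => by exact_mod_cast ones_le x j 1
    have hx0 : ∀ j, (0 : ℝ) ≤ ones x j 1 := fun j => Nat.cast_nonneg _
    have h0 : ∀ j, t j ≤ t (j + 1) := by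
      intro j
      rw [hstep]
      have a1 : 0 ≤ l * ones x j 1 := mul_nonneg hl0 (hx0 j)
      have a2 : 0 ≤ (1 - l) * α := mul_nonneg (by linarith) ha0
      linarith
    have h1 : ∀ j, t (j + 1) ≤ t j + 1 := by
      intro j
      rw [hstep]
      have a1 : l * ones x j 1 ≤ l * 1 := mul_le_mul_of_nonneg_left (hx1 j) hl0
      have a2 : (1 - l) * α ≤ (1 - l) * 1 := mul_le_mul_of_nonneg_left ha1 (by linarith)
      linarith
    have hones := ones_flWord t h0 h1
    refine ⟨flWord t, ?_, x, hull_self x, ?_⟩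
    · intro i m
      obtain ⟨j1, hj1⟩ := freq_le h m
      obtain ⟨j2, hj2⟩ := freq_ge h m
      have lower : ∀ a : ℕ, (a : ℝ) ≤ l * ones x i m + (1 - l) * (α * m) →
          a ≤ ones (flWord t) i m := by
        intro a ha
        have h2 : t i + a ≤ t (i + m) := by rw [htd]; linarith
        have h3 := Int.floor_le_floor h2
        rw [Int.floor_add_natCast] at h3
        have := hones i m
        omega
      have upper : ∀ a : ℕ, l * ones x i m + (1 - l) * (α * m) ≤ (a : ℝ) →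
          ones (flWord t) i m ≤ a := by
        intro a ha
        have h2 : t (i + m) ≤ t i + a := by rw [htd]; linarith
        have h3 := Int.floor_le_floor h2
        rw [Int.floor_add_natCast] at h3
        have := hones i m
        omega
      have low : ∃ j, ones x j m ≤ ones (flWord t) i m := by
        rcases le_total (ones x i m) (ones x j1 m) with hc | hc
        · refine ⟨i, lower _ ?_⟩
          have hc' : (ones x i m : ℝ) ≤ α * m := le_trans (by exact_mod_cast hc) hj1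
          nlinarith
        · refine ⟨j1, lower _ ?_⟩
          have hc' : (ones x j1 m : ℝ) ≤ ones x i m := by exact_mod_cast hc
          nlinarith
      have up : ∃ j, ones (flWord t) i m ≤ ones x j m := by
        rcases le_total (ones x j2 m) (ones x i m) with hc | hc
        · refine ⟨i, upper _ ?_⟩
          have hc' : α * m ≤ (ones x i m : ℝ) := le_trans hj2 (by exact_mod_cast hc)
          nlinarith
        · refine ⟨j2, upper _ ?_⟩
          have hc' : (ones x i m : ℝ) ≤ ones x j2 m := by exact_mod_cast hc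
          nlinarith
      obtain ⟨a, ha⟩ := low
      obtain ⟨b, hb⟩ := up
      exact ones_ivt x m _ a b ha hb
    · intro i m
      have h2 := hones i m
      have h3 : (ones (flWord t) i m : ℝ) = (⌊t (i + m)⌋ : ℝ) - ⌊t i⌋ := by exact_mod_cast h2
      rw [h3]
      have e := htd i m
      have f1 := Int.floor_le (t (i + m))
      have f2 := Int.lt_floor_add_one (t (i + m))
      have f3 := Int.floor_le (t i)
      have f4 := Int.lt_floor_add_one (t i)
      rw [abs_le]
      constructor <;> linarith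
  · rintro z ⟨hz, y, hy, hh⟩
    refine ⟨shift_mem_abClosure hz, shift y, shift_mem_hull hy, fun i m => ?_⟩
    rw [ones_shift, ones_shift]
    exact hh (i + 1) m

/-- unbounded discrepancy -/
theorem case_unbounded {x : ℕ → Bool} {α : ℝ} (hx : UnifRec x) (h : HasFreq x α)
    (hub : ∀ C : ℝ, ∃ j m : ℕ, C < |(ones x j m : ℝ) - α * m|) :
    ¬ {M : Set (ℕ → Bool) | MinSub M ∧ M ⊆ abClosure x}.Countable := by
  have hS : ¬ (Set.Ioo (0 : ℝ) 1).Countable := by
    intro hc
    have := Cardinal.mk_Ioo_real (show (0 : ℝ) < 1 by norm_num)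
    rw [← Cardinal.le_aleph0_iff_set_countable, this] at hc
    exact absurd hc (not_le.2 Cardinal.aleph0_lt_continuum)
  refine uncountable_min hS (Z1 x α) (fun s hs => Z1_inv h hs.1.le hs.2.le)
    (fun s _ z hz => hz.1) ?_
  intro l hl _ _ l' hl' hlt1 hlt2
  have hll : l < l' := hlt1.trans hlt2
  rw [Set.disjoint_left]
  rintro z ⟨_, y, hy, hyz⟩ ⟨_, y', hy', hyz'⟩
  -- comparison
  obtain ⟨j, m, hjm⟩ := hub (2 / (l' - l))
  have hd : 0 < l' - l := by linarith
  have hcomp : ∀ i, |l * ((ones y i m : ℝ) - α * m) - l' * ((ones y' i m : ℝ) - α * m)| ≤ 2 := by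
    intro i
    have h1 := abs_le.1 (hyz i m)
    have h2 := abs_le.1 (hyz' i m)
    rw [abs_le]
    constructor <;> nlinarith [h1.1, h1.2, h2.1, h2.2]
  have hyx : ∀ i, ∃ j, ones y i m = ones x j m := by
    intro i
    obtain ⟨j, hj⟩ := hy i m
    exact ⟨j, ones_congr hj⟩
  have hocc : ∀ j, ∃ i, ones y' i m = ones x j m := by
    intro j
    obtain ⟨K, hK⟩ := hull_rec hx j m
    obtain ⟨p, _, _, hp⟩ := hK y' hy' 0
    exact ⟨p, ones_congr hp⟩
  have hbdd : BddAbove (Set.range fun j => ones x j m) := ⟨m, by rintro _ ⟨j, rfl⟩; exact ones_le _ _ _⟩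
  rcases lt_or_ge 0 ((ones x j m : ℝ) - α * m) with hpos | hneg
  · rw [abs_of_pos hpos] at hjm
    obtain ⟨j0, hj0⟩ : sSup (Set.range fun j => ones x j m) ∈ Set.range fun j => ones x j m :=
      Nat.sSup_mem ⟨_, ⟨0, rfl⟩⟩ hbdd
    have hmax : ∀ j, ones x j m ≤ ones x j0 m := by
      intro j
      simp only at hj0
      rw [hj0]; exact le_csSup hbdd ⟨j, rfl⟩
    obtain ⟨i, hi⟩ := hocc j0
    obtain ⟨j3, hj3⟩ := hyx i
    have b1 : (ones y i m : ℝ) ≤ ones x j0 m := by rw [hj3]; exact_mod_cast hmax j3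
    have b2 : (ones x j m : ℝ) ≤ ones x j0 m := by exact_mod_cast hmax j
    have b3 := (abs_le.1 (hcomp i)).1
    rw [hi] at b3
    have b4 : l * ((ones y i m : ℝ) - α * m) ≤ l * ((ones x j0 m : ℝ) - α * m) :=
      mul_le_mul_of_nonneg_left (by linarith) hl.1.le
    have b5 : (l' - l) * ((ones x j0 m : ℝ) - α * m) ≤ 2 := by linarith
    have b6 : 2 < (l' - l) * ((ones x j m : ℝ) - α * m) := by
      rw [div_lt_iff₀ hd] at hjm; linarith
    have b7 : (l' - l) * ((ones x j m : ℝ) - α * m) ≤ (l' - l) * ((ones x j0 m : ℝ) - α * m) :=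
      mul_le_mul_of_nonneg_left (by linarith) hd.le
    linarith
  · rw [abs_of_nonpos hneg] at hjm
    obtain ⟨j0, hj0⟩ : sInf (Set.range fun j => ones x j m) ∈ Set.range fun j => ones x j m :=
      Nat.sInf_mem ⟨_, ⟨0, rfl⟩⟩
    have hmin : ∀ j, ones x j0 m ≤ ones x j m := by
      intro j
      simp only at hj0
      rw [hj0]; exact Nat.sInf_le ⟨j, rfl⟩
    obtain ⟨i, hi⟩ := hocc j0
    obtain ⟨j3, hj3⟩ := hyx i
    have b1 : (ones x j0 m : ℝ) ≤ ones y i m := by rw [hj3]; exact_mod_cast hmin j3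
    have b2 : (ones x j0 m : ℝ) ≤ ones x j m := by exact_mod_cast hmin j
    have b3 := (abs_le.1 (hcomp i)).2
    rw [hi] at b3
    have b4 : l * ((ones x j0 m : ℝ) - α * m) ≤ l * ((ones y i m : ℝ) - α * m) :=
      mul_le_mul_of_nonneg_left (by linarith) hl.1.le
    have b5 : (l' - l) * (-((ones x j0 m : ℝ) - α * m)) ≤ 2 := by linarith
    have b6 : 2 < (l' - l) * (-((ones x j m : ℝ) - α * m)) := by
      rw [div_lt_iff₀ hd] at hjm; linarith
    have b7 : (l' - l) * (-((ones x j m : ℝ) - α * m)) ≤ (l' - l) * (-((ones x j0 m : ℝ) - α * m)) :=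
      mul_le_mul_of_nonneg_left (by linarith) hd.le
    linarith

end Pool.Agent.X181.AC
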