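import Pool.Agent.X181.AC.Sturm

namespace Pool.Agent.X181.AC

/-- heights -/
noncomputable def hh (α : ℝ) (y : ℕ → Bool) (i : ℕ) : ℝ := (ones y 0 i : ℝ) - α * i

theorem hh_add (α : ℝ) (y : ℕ → Bool) (i m : ℕ) :
    hh α y (i + m) = hh α y i + ((ones y i m : ℝ) - α * m) := by
  unfold hh
  rw [ones_add, Nat.zero_add]; push_cast; ring

theorem hh_zero (α : ℝ) (y : ℕ → Bool) : hh α y 0 = 0 := by simp [hh, ones_zero]

theorem hh_shift (α : ℝ) (y : ℕ → Bool) (i : ℕ) :
    hh α (shift y) i = hh α y (i + 1) - hh α y 1 := by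
  have h := hh_add α y 1 i
  rw [Nat.add_comm 1 i] at h
  rw [h]
  unfold hh
  rw [ones_shift]; ring

theorem continuous_hh (α : ℝ) (i : ℕ) : Continuous fun y : ℕ → Bool => hh α y i :=
  (continuous_ones 0 i).sub continuous_const

/-- normalised bounded heights of `x`: `0 ≤ c0 + h ≤ W`, both bounds being sharp -/
structure Osc (α : ℝ) (x : ℕ → Bool) (c0 W : ℝ) : Prop where
  lo : ∀ i, 0 ≤ c0 + hh α x i
  hi : ∀ i, c0 + hh α x i ≤ W
  lo' : ∀ ε > 0, ∃ i, c0 + hh α x i < ε
  hi' : ∀ ε > 0, ∃ i, W - ε < c0 + hh α x i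

theorem exists_osc {α : ℝ} {x : ℕ → Bool} {C : ℝ} (hC : ∀ j m : ℕ, |(ones x j m : ℝ) - α * m| ≤ C) :
    ∃ c0 W, Osc α x c0 W := by
  have hb : ∀ i, |hh α x i| ≤ C := fun i => hC 0 i
  have hbl : BddBelow (Set.range (hh α x)) := ⟨-C, by rintro _ ⟨i, rfl⟩; exact (abs_le.1 (hb i)).1⟩
  have hbu : BddAbove (Set.range (hh α x)) := ⟨C, by rintro _ ⟨i, rfl⟩; exact (abs_le.1 (hb i)).2⟩
  refine ⟨-sInf (Set.range (hh α x)), sSup (Set.range (hh α x)) - sInf (Set.range (hh α x)),
    fun i => ?_, fun i => ?_, fun ε hε => ?_, fun ε hε => ?_⟩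
  · have := csInf_le hbl ⟨i, rfl⟩
    linarith
  · have := le_csSup hbu ⟨i, rfl⟩
    linarith
  · obtain ⟨_, ⟨i, rfl⟩, hi⟩ := exists_lt_of_csInf_lt (Set.range_nonempty (hh α x))
      (show sInf (Set.range (hh α x)) < sInf (Set.range (hh α x)) + ε by linarith)
    exact ⟨i, by linarith⟩
  · obtain ⟨_, ⟨i, rfl⟩, hi⟩ := exists_lt_of_lt_csSup (Set.range_nonempty (hh α x))
      (show sSup (Set.range (hh α x)) - ε < sSup (Set.range (hh α x)) by linarith)
    exact ⟨i, by linarith⟩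

/-- values approached by the heights -/
def Val (α : ℝ) (x : ℕ → Bool) (c0 : ℝ) : Set ℝ := closure (Set.range fun i => c0 + hh α x i)

theorem mem_Val {α : ℝ} {x : ℕ → Bool} {c0 s : ℝ} :
    s ∈ Val α x c0 ↔ ∀ ε > 0, ∃ i, |(c0 + hh α x i) - s| < ε := by
  unfold Val
  rw [Metric.mem_closure_range_iff]
  constructor
  · intro h ε hε
    obtain ⟨i, hi⟩ := h ε hε
    rw [dist_comm, Real.dist_eq] at hi
    exact ⟨i, hi⟩
  · intro h ε hε
    obtain ⟨i, hi⟩ := h ε hε
    refine ⟨i, ?_⟩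
    rw [dist_comm, Real.dist_eq]
    exact hi

/-- approximation of every value on bounded windows, uniformly on the hull -/
theorem window {α : ℝ} {x : ℕ → Bool} (hx : UnifRec x) {c0 W : ℝ} (ho : Osc α x c0 W) {s : ℝ}
    (hs : s ∈ Val α x c0) {ε : ℝ} (hε : 0 < ε) :
    ∃ K : ℕ, ∀ y ∈ Hull x, ∀ c : ℝ, (∀ i, 0 ≤ c + hh α y i ∧ c + hh α y i ≤ W) →
      ∀ i : ℕ, ∃ q, i ≤ q ∧ q ≤ i + K ∧ |(c + hh α y q) - s| < ε := by
  obtain ⟨j0, hj0⟩ := ho.lo' (ε / 2) (by positivity)
  obtain ⟨j1, hj1⟩ := ho.hi' (ε / 2) (by positivity)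
  obtain ⟨j2, hj2⟩ := mem_Val.1 hs (ε / 2) (by positivity)
  obtain ⟨K, hK⟩ := hull_rec hx 0 (j0 + j1 + j2)
  refine ⟨K + (j0 + j1 + j2), fun y hy c hc i => ?_⟩
  obtain ⟨p, hp1, hp2, hp3⟩ := hK y hy i
  have key : ∀ t, t ≤ j0 + j1 + j2 → hh α y (p + t) = hh α y p + hh α x t := by
    intro t ht
    rw [hh_add]
    congr 1
    unfold hh
    rw [ones_congr (z := x) (j := 0) (fun s hs => hp3 s (by omega))]
  refine ⟨p + j2, by omega, by omega, ?_⟩
  have k0 := key j0 (by omega)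
  have k1 := key j1 (by omega)
  have k2 := key j2 (by omega)
  have h0 := (hc (p + j0)).1
  have h1 := (hc (p + j1)).2
  rw [k0] at h0
  rw [k1] at h1
  rw [k2]
  have h2 := abs_lt.1 hj2
  rw [abs_lt]
  constructor <;> linarith [h2.1, h2.2]

/-- the family of the bounded case -/
def Z2 (x : ℕ → Bool) (α W s : ℝ) : Set (ℕ → Bool) :=
  {z | z ∈ abClosure x ∧ ∃ y ∈ Hull x, ∃ c d : ℝ,
    (∀ i, 0 ≤ c + hh α y i ∧ c + hh α y i ≤ W) ∧
    ∀ i, (c + hh α y i ≤ s ∧ d + hh α z i = c + hh α y i) ∨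
      (s ≤ c + hh α y i ∧ d + hh α z i = c + hh α y i - 1)}

theorem Z2_closed (x : ℕ → Bool) (α W s : ℝ) : IsClosed (Z2 x α W s) := by
  set C : Set (((ℕ → Bool) × (ℕ → Bool)) × (ℝ × ℝ)) :=
    ({p | p.1.1 ∈ Hull x} ∩ {p | p.1.2 ∈ abClosure x}) ∩
    ((⋂ i : ℕ, {p | 0 ≤ p.2.1 + hh α p.1.1 i ∧ p.2.1 + hh α p.1.1 i ≤ W}) ∩
    ⋂ i : ℕ, {p | (p.2.1 + hh α p.1.1 i ≤ s ∧ p.2.2 + hh α p.1.2 i = p.2.1 + hh α p.1.1 i) ∨
      (s ≤ p.2.1 + hh α p.1.1 i ∧ p.2.2 + hh α p.1.2 i = p.2.1 + hh α p.1.1 i - 1)}) with hC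
  have cy : ∀ i, Continuous fun p : ((ℕ → Bool) × (ℕ → Bool)) × (ℝ × ℝ) => p.2.1 + hh α p.1.1 i :=
    fun i => (continuous_fst.comp continuous_snd).add
      ((continuous_hh α i).comp (continuous_fst.comp continuous_fst))
  have cz : ∀ i, Continuous fun p : ((ℕ → Bool) × (ℕ → Bool)) × (ℝ × ℝ) => p.2.2 + hh α p.1.2 i :=
    fun i => (continuous_snd.comp continuous_snd).add
      ((continuous_hh α i).comp (continuous_snd.comp continuous_fst))
  have hCc : IsClosed C := by
    refine (((isClosed_hull x).preimage (continuous_fst.comp continuous_fst)).inter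
      ((isClosed_abClosure x).preimage (continuous_snd.comp continuous_fst))).inter ?_
    refine (isClosed_iInter fun i => ?_).inter (isClosed_iInter fun i => ?_)
    · exact (isClosed_le continuous_const (cy i)).inter (isClosed_le (cy i) continuous_const)
    · exact ((isClosed_le (cy i) continuous_const).inter (isClosed_eq (cz i) (cy i))).union
        ((isClosed_le continuous_const (cy i)).inter (isClosed_eq (cz i) ((cy i).sub continuous_const)))
  have hCk : IsCompact C := by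
    have hk : IsCompact ((Set.univ : Set ((ℕ → Bool) × (ℕ → Bool))) ×ˢ
        ((Set.Icc (0 : ℝ) W) ×ˢ (Set.Icc (-1 : ℝ) W))) :=
      isCompact_univ.prod (isCompact_Icc.prod isCompact_Icc)
    refine hk.of_isClosed_subset hCc ?_
    rintro ⟨⟨y, z⟩, ⟨c, d⟩⟩ ⟨_, h1, h2⟩
    rw [Set.mem_iInter] at h1 h2
    have a := h1 0
    have b := h2 0
    simp only [Set.mem_ofPred_eq, hh_zero, add_zero] at a b
    refine ⟨Set.mem_univ _, ⟨a.1, a.2⟩, ?_⟩
    show -1 ≤ d ∧ d ≤ W
    rcases b with b | b <;> constructor <;> linarith [a.1, a.2, b.1, b.2]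
  have himg : Z2 x α W s = (fun p : ((ℕ → Bool) × (ℕ → Bool)) × (ℝ × ℝ) => p.1.2) '' C := by
    ext z
    constructor
    · rintro ⟨hz, y, hy, c, d, h1, h2⟩
      refine ⟨⟨⟨y, z⟩, ⟨c, d⟩⟩, ⟨⟨hy, hz⟩, ?_, ?_⟩, rfl⟩
      · rw [Set.mem_iInter]; exact h1
      · rw [Set.mem_iInter]; exact h2
    · rintro ⟨⟨⟨y, z'⟩, ⟨c, d⟩⟩, ⟨⟨hy, hz⟩, h1, h2⟩, rfl⟩
      rw [Set.mem_iInter] at h1 h2
      exact ⟨hz, y, hy, c, d, h1, h2⟩
  rw [himg]
  exact (hCk.image (continuous_snd.comp continuous_fst)).isClosed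

theorem Z2_nonempty {x : ℕ → Bool} {α : ℝ} (h : HasFreq x α) {c0 W : ℝ} (ho : Osc α x c0 W) (s : ℝ) :
    (Z2 x α W s).Nonempty := by
  classical
  obtain ⟨ha0, ha1⟩ := freq_mem h
  set H : ℕ → ℝ := fun i => c0 + hh α x i with hH
  set b : ℕ → ℕ := fun i => if s < H i then 1 else 0 with hb
  have hstep : ∀ i, H (i + 1) = H i + ((if x i = true then (1 : ℝ) else 0) - α) := by
    intro i
    simp only [hH]
    rw [hh_add]
    have e := ones_succ x i 0
    rw [ones_zero] at e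
    simp only [Nat.add_zero, Nat.zero_add] at e
    rw [e]
    push_cast
    ring
  set z : ℕ → Bool := fun i =>
    if s < H (i + 1) ∧ ¬ s < H i then false else if s < H i ∧ ¬ s < H (i + 1) then true else x i with hz
  have hones : ∀ i, ones z 0 i + b i = ones x 0 i + b 0 := by
    intro i
    induction i with
    | zero => simp [ones_zero]
    | succ i ih =>
      rw [ones_succ, ones_succ, Nat.zero_add]
      have hs := hstep i
      by_cases h1 : s < H (i + 1) <;> by_cases h2 : s < H i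
      · have hzi : z i = x i := by
          simp only [hz]; rw [if_neg (fun h => h.2 h2), if_neg (fun h => h.2 h1)]
        have hb1 : b (i + 1) = 1 := by simp only [hb]; rw [if_pos h1]
        have hb2 : b i = 1 := by simp only [hb]; rw [if_pos h2]
        rw [hzi, hb1]; rw [hb2] at ih; omega
      · have hzi : z i = false := by simp only [hz]; rw [if_pos ⟨h1, h2⟩]
        have hb1 : b (i + 1) = 1 := by simp only [hb]; rw [if_pos h1]
        have hb2 : b i = 0 := by simp only [hb]; rw [if_neg h2]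
        have hxi : x i = true := by
          by_contra hne
          rw [if_neg hne] at hs
          linarith
        rw [hzi, hb1, hxi]; rw [hb2] at ih; simp; omega
      · have hzi : z i = true := by
          simp only [hz]; rw [if_neg (fun h => h1 h.1), if_pos ⟨h2, h1⟩]
        have hb1 : b (i + 1) = 0 := by simp only [hb]; rw [if_neg h1]
        have hb2 : b i = 1 := by simp only [hb]; rw [if_pos h2]
        have hxi : ¬ x i = true := by
          intro he
          rw [if_pos he] at hs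
          linarith
        rw [hzi, hb1, if_neg hxi]; rw [hb2] at ih; simp; omega
      · have hzi : z i = x i := by
          simp only [hz]; rw [if_neg (fun h => h1 h.1), if_neg (fun h => h2 h.1)]
        have hb1 : b (i + 1) = 0 := by simp only [hb]; rw [if_neg h1]
        have hb2 : b i = 0 := by simp only [hb]; rw [if_neg h2]
        rw [hzi, hb1]; rw [hb2] at ih; omega
  have hwin : ∀ i m, ones z i m + b (i + m) = ones x i m + b i := by
    intro i m
    have h1 := hones (i + m)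
    have h2 := hones i
    rw [ones_add z 0 i m, ones_add x 0 i m, Nat.zero_add] at h1
    omega
  have hbe : ∀ i, (b i = 1 ∧ s < H i) ∨ (b i = 0 ∧ H i ≤ s) := by
    intro i
    by_cases h2 : s < H i
    · left; exact ⟨by simp only [hb]; rw [if_pos h2], h2⟩
    · right; exact ⟨by simp only [hb]; rw [if_neg h2], not_lt.1 h2⟩
  have hHd : ∀ i m, H (i + m) = H i + ((ones x i m : ℝ) - α * m) := by
    intro i m; simp only [hH]; rw [hh_add]; ring
  refine ⟨z, ?_, x, hull_self x, c0, c0 - b 0, fun i => ⟨ho.lo i, ho.hi i⟩, fun i => ?_⟩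
  · intro i m
    have hw := hwin i m
    obtain ⟨j1, hj1⟩ := freq_le h m
    obtain ⟨j2, hj2⟩ := freq_ge h m
    have hd := hHd i m
    have low : ∃ j, ones x j m ≤ ones z i m := by
      rcases hbe i with ⟨e1, f1⟩ | ⟨e1, f1⟩ <;> rcases hbe (i + m) with ⟨e2, f2⟩ | ⟨e2, f2⟩
      · exact ⟨i, by omega⟩
      · exact ⟨i, by omega⟩
      · refine ⟨j1, ?_⟩
        have : (ones x j1 m : ℝ) < ones x i m := by linarith
        have : ones x j1 m < ones x i m := by exact_mod_cast this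
        omega
      · exact ⟨i, by omega⟩
    have up : ∃ j, ones z i m ≤ ones x j m := by
      rcases hbe i with ⟨e1, f1⟩ | ⟨e1, f1⟩ <;> rcases hbe (i + m) with ⟨e2, f2⟩ | ⟨e2, f2⟩
      · exact ⟨i, by omega⟩
      · refine ⟨j2, ?_⟩
        have : (ones x i m : ℝ) < ones x j2 m := by linarith
        have : ones x i m < ones x j2 m := by exact_mod_cast this
        omega
      · exact ⟨i, by omega⟩
      · exact ⟨i, by omega⟩
    obtain ⟨a, ha⟩ := low
    obtain ⟨b', hb'⟩ := up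
    exact ones_ivt x m _ a b' ha hb'
  · have h1 := hones i
    have h1' : (ones z 0 i : ℝ) + b i = ones x 0 i + b 0 := by exact_mod_cast h1
    rcases hbe i with ⟨e1, f1⟩ | ⟨e1, f1⟩
    · right
      refine ⟨f1.le, ?_⟩
      rw [e1] at h1'
      unfold hh
      push_cast at h1'
      linarith
    · left
      refine ⟨f1, ?_⟩
      rw [e1] at h1'
      unfold hh
      push_cast at h1'
      linarith

theorem Z2_inv {x : ℕ → Bool} {α : ℝ} (h : HasFreq x α) {c0 W : ℝ} (ho : Osc α x c0 W) (s : ℝ) :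
    Inv (Z2 x α W s) := by
  refine ⟨Z2_nonempty h ho s, Z2_closed x α W s, ?_⟩
  rintro z ⟨hz, y, hy, c, d, h1, h2⟩
  refine ⟨shift_mem_abClosure hz, shift y, shift_mem_hull hy, c + hh α y 1, d + hh α z 1,
    fun i => ?_, fun i => ?_⟩
  · rw [hh_shift]
    have := h1 (i + 1)
    constructor <;> linarith [this.1, this.2]
  · rw [hh_shift, hh_shift]
    rcases h2 (i + 1) with ⟨a, b⟩ | ⟨a, b⟩
    · left; constructor <;> linarith
    · right; constructor <;> linarith

theorem Z2_disjoint {x : ℕ → Bool} {α : ℝ} (hx : UnifRec x) {c0 W : ℝ} (ho : Osc α x c0 W)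
    {s s' s'' : ℝ} (h1 : 1 ≤ s) (hW : W - 1 ≤ s) (hs' : s' ∈ Val α x c0) (hlt1 : s < s')
    (hlt2 : s' < s'') : Disjoint (Z2 x α W s) (Z2 x α W s'') := by
  rw [Set.disjoint_left]
  rintro z ⟨_, y, hy, c, d, hc, hz⟩ ⟨_, y', hy', c', d', hc', hz'⟩
  have hrange : ∀ i, 0 ≤ d + hh α z i ∧ d + hh α z i ≤ s := by
    intro i
    have := hc i
    rcases hz i with ⟨a, b⟩ | ⟨a, b⟩ <;> constructor <;> linarith [this.1, this.2]
  have h0mem : (0 : ℝ) ∈ Val α x c0 := by
    rw [mem_Val]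
    intro ε hε
    obtain ⟨i, hi⟩ := ho.lo' ε hε
    have := ho.lo i
    exact ⟨i, by rw [abs_lt]; constructor <;> linarith⟩
  set ε := min ((s' - s) / 2) (s'' - s') with hε
  have hεp : 0 < ε := lt_min (by linarith) (by linarith)
  have hε1 : ε ≤ (s' - s) / 2 := min_le_left _ _
  have hε2 : ε ≤ s'' - s' := min_le_right _ _
  obtain ⟨K, hK⟩ := window hx ho hs' hεp
  obtain ⟨K', hK'⟩ := window hx ho h0mem hεp
  obtain ⟨q, _, _, hq⟩ := hK y' hy' c' hc' 0
  obtain ⟨r, _, _, hr⟩ := hK' y' hy' c' hc' 0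
  have hq' := abs_lt.1 hq
  have hr' := abs_lt.1 hr
  have e1 : d' + hh α z q = c' + hh α y' q := by
    rcases hz' q with ⟨a, b⟩ | ⟨a, b⟩
    · exact b
    · exfalso; linarith [hq'.2]
  have e2 : d' + hh α z r = c' + hh α y' r := by
    rcases hz' r with ⟨a, b⟩ | ⟨a, b⟩
    · exact b
    · exfalso; linarith [hr'.2]
  have a1 := (hrange q).2
  have a2 := (hrange r).1
  linarith [hq'.1, hr'.2]

/-- the set of values near the top is uncountable -/
theorem vals_uncountable {x : ℕ → Bool} {α : ℝ} (hx : UnifRec x) (hirr : Irrational α)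
    {c0 W : ℝ} (ho : Osc α x c0 W) {a : ℝ} (ha : a < W) :
    ¬ (Val α x c0 ∩ Set.Ioo a W).Countable := by
  intro hcount
  set a' := (a + W) / 2 with ha'
  have haa : a < a' := by rw [ha']; linarith
  have haW : a' < W := by rw [ha']; linarith
  have hWmem : W ∈ Val α x c0 := by
    rw [mem_Val]
    intro ε hε
    obtain ⟨i, hi⟩ := ho.hi' ε hε
    have := ho.hi i
    exact ⟨i, by rw [abs_lt]; constructor <;> linarith⟩
  obtain ⟨K, hK⟩ := window hx ho hWmem (show 0 < W - a' by linarith)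
  set V := Val α x c0 ∩ Set.Icc a' W with hV
  have hVc : IsCompact V := isCompact_Icc.inter_left isClosed_closure
  have hVcount : V.Countable := by
    refine (hcount.union (Set.countable_singleton W)).mono ?_
    rintro v ⟨hv1, hv2, hv3⟩
    rcases lt_or_eq_of_le hv3 with h | h
    · left; exact ⟨hv1, lt_of_lt_of_le haa hv2, h⟩
    · right; exact h
  have : Fact ((0 : ℝ) < 1) := ⟨one_pos⟩
  set Q : Set (AddCircle (1 : ℝ)) :=
    ⋃ t ∈ Finset.range (K + 1), (fun v : ℝ => ((v + α * (t : ℕ) : ℝ) : AddCircle (1 : ℝ))) '' V with hQ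
  have hQc : IsClosed Q := by
    refine (Finset.isCompact_biUnion _ fun t _ => ?_).isClosed
    exact hVc.image (AddCircle.continuous_mk' 1 |>.comp (continuous_id.add continuous_const))
  have hmem : ∀ i : ℕ, (((c0 - α * i : ℝ)) : AddCircle (1 : ℝ)) ∈ Q := by
    intro i
    obtain ⟨q, hq1, hq2, hq3⟩ := hK x (hull_self x) c0 (fun i => ⟨ho.lo i, ho.hi i⟩) i
    obtain ⟨t, rfl⟩ := Nat.exists_eq_add_of_le hq1
    rw [hQ, Set.mem_iUnion₂]
    refine ⟨t, Finset.mem_range.2 (by omega), c0 + hh α x (i + t), ⟨?_, ?_, ho.hi _⟩, ?_⟩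
    · exact subset_closure ⟨_, rfl⟩
    · have := (abs_lt.1 hq3).1
      linarith
    · simp only
      rw [QuotientAddGroup.eq, AddSubgroup.mem_zmultiples_iff]
      refine ⟨-(ones x 0 (i + t) : ℤ), ?_⟩
      unfold hh
      push_cast
      simp only [zsmul_eq_mul]
      push_cast
      ring
  have hdense : Dense (Set.range fun i : ℕ => (((c0 - α * i : ℝ)) : AddCircle (1 : ℝ))) := by
    have h1 : DenseRange (fun n : ℤ => n • ((-α : ℝ) : AddCircle (1 : ℝ))) := by
      rw [AddCircle.denseRange_zsmul_coe_iff]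
      rw [div_one]
      exact hirr.neg
    have h2 : DenseRange (fun n : ℕ => n • ((-α : ℝ) : AddCircle (1 : ℝ))) :=
      denseRange_zsmul_iff_nsmul.1 h1
    have h3 : DenseRange (fun n : ℕ => ((c0 : ℝ) : AddCircle (1 : ℝ)) + n • ((-α : ℝ) : AddCircle (1 : ℝ))) :=
      (Homeomorph.addLeft ((c0 : ℝ) : AddCircle (1 : ℝ))).surjective.denseRange.comp h2
        (Homeomorph.addLeft _).continuous
    have : (fun i : ℕ => (((c0 - α * i : ℝ)) : AddCircle (1 : ℝ))) =
        (fun n : ℕ => ((c0 : ℝ) : AddCircle (1 : ℝ)) + n • ((-α : ℝ) : AddCircle (1 : ℝ))) := by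
      funext i
      rw [← AddCircle.coe_nsmul, ← AddCircle.coe_add]
      congr 1
      rw [nsmul_eq_mul]
      ring
    rw [this]
    exact h3
  have hQu : Q = Set.univ := by
    apply Set.eq_univ_of_univ_subset
    rw [← hdense.closure_eq]
    apply closure_minimal _ hQc
    rintro _ ⟨i, rfl⟩
    exact hmem i
  have hcov : (Set.univ : Set ℝ) ⊆ ⋃ t : ℕ, ⋃ k : ℤ, (fun v : ℝ => v + α * t + k) '' V := by
    intro r _
    have hr : ((r : ℝ) : AddCircle (1 : ℝ)) ∈ Q := by rw [hQu]; exact Set.mem_univ _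
    rw [hQ, Set.mem_iUnion₂] at hr
    obtain ⟨t, _, v, hv, hvr⟩ := hr
    simp only at hvr
    rw [QuotientAddGroup.eq, AddSubgroup.mem_zmultiples_iff] at hvr
    obtain ⟨k, hk⟩ := hvr
    rw [Set.mem_iUnion]
    refine ⟨t, ?_⟩
    rw [Set.mem_iUnion]
    refine ⟨k, v, hv, ?_⟩
    simp only [zsmul_eq_mul, mul_one] at hk
    simp only
    rw [hk]; ring
  have hcR : (Set.univ : Set ℝ).Countable := by
    refine Set.Countable.mono hcov ?_
    exact Set.countable_iUnion fun t => Set.countable_iUnion fun k => hVcount.image _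
  exact Cardinal.not_countable_real hcR

/-- non-Sturmian words have oscillation larger than one -/
theorem one_lt_osc {x : ℕ → Bool} {α : ℝ} (hap : Aperiodic x) (hns : ¬ Sturmian x)
    (hirr : Irrational α) {c0 W : ℝ} (ho : Osc α x c0 W) : 1 < W := by
  by_contra hW
  push Not at hW
  apply hns
  apply sturmian_of_bal hap
  intro i j m
  by_contra hcon
  push Not at hcon
  have h1 := hh_add α x i m
  have h2 := hh_add α x j m
  have a1 := ho.lo i
  have a2 := ho.hi (i + m)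
  have a3 := ho.hi j
  have a4 := ho.lo (j + m)
  have h3 : (ones x j m : ℝ) + 2 ≤ ones x i m := by exact_mod_cast (show ones x j m + 2 ≤ ones x i m by omega)
  have h4 : (ones x i m : ℝ) - α * m = 1 := by linarith
  have hm : 0 < m := by
    rcases Nat.eq_zero_or_pos m with h0 | h0
    · subst h0
      simp [ones_zero] at hcon
    · exact h0
  apply hirr
  refine ⟨((ones x i m : ℚ) - 1) / m, ?_⟩
  push_cast
  have hmr : (0 : ℝ) < m := by exact_mod_cast hm
  rw [div_eq_iff hmr.ne']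
  linarith

theorem case_bounded {x : ℕ → Bool} {α : ℝ} (hx : UnifRec x) (hap : Aperiodic x)
    (hns : ¬ Sturmian x) (h : HasFreq x α) (hirr : Irrational α) {C : ℝ}
    (hC : ∀ j m : ℕ, |(ones x j m : ℝ) - α * m| ≤ C) :
    ¬ {M : Set (ℕ → Bool) | MinSub M ∧ M ⊆ abClosure x}.Countable := by
  obtain ⟨c0, W, ho⟩ := exists_osc hC
  have hW := one_lt_osc hap hns hirr ho
  have hlt : max 1 (W - 1) < W := max_lt hW (by linarith)
  refine uncountable_min (vals_uncountable hx hirr ho hlt) (Z2 x α W) (fun s _ => Z2_inv h ho s)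
    (fun s _ z hz => hz.1) ?_
  rintro s ⟨_, hs, _⟩ s' ⟨hs', _⟩ s'' _ h1 h2
  exact Z2_disjoint hx ho ((le_max_left _ _).trans hs.le) ((le_max_right _ _).trans hs.le) hs' h1 h2

theorem main {x : ℕ → Bool} {α : ℝ} (hx : UnifRec x) (hap : Aperiodic x)
    (hns : ¬ Sturmian x) (h : HasFreq x α) (hirr : Irrational α) :
    ¬ {M : Set (ℕ → Bool) | MinSub M ∧ M ⊆ abClosure x}.Countable := by
  by_cases hb : ∃ C : ℝ, ∀ j m : ℕ, |(ones x j m : ℝ) - α * m| ≤ C
  · obtain ⟨C, hC⟩ := hb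
    exact case_bounded hx hap hns h hirr hC
  · push Not at hb
    exact case_unbounded hx h hb

end Pool.Agent.X181.AC
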