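import Pool.Agent.X181.AC.Word

namespace Pool.Agent.X181.AC

/-- The abelian closure. -/
def abClosure (x : ℕ → Bool) : Set (ℕ → Bool) :=
  {y | ∀ i m : ℕ, ∃ j : ℕ, ones y i m = ones x j m}

/-- blocks of length `m` occurring in some element of `X` -/
def lang (X : Set (ℕ → Bool)) (m : ℕ) : Set (Fin m → Bool) :=
  {w | ∃ y ∈ X, ∃ i : ℕ, w = fun j : Fin m => y (i + (j : ℕ))}

theorem lang_finite (X : Set (ℕ → Bool)) (m : ℕ) : (lang X m).Finite := Set.toFinite _

theorem lang_nonempty {X : Set (ℕ → Bool)} (h : X.Nonempty) (m : ℕ) : (lang X m).Nonempty := by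
  obtain ⟨y, hy⟩ := h
  exact ⟨_, y, hy, 0, rfl⟩

theorem lang_add (X : Set (ℕ → Bool)) (a b : ℕ) :
    (lang X (a + b)).ncard ≤ (lang X a).ncard * (lang X b).ncard := by
  rw [← Set.ncard_prod]
  refine Set.ncard_le_ncard_of_injOn (fun w => (fun j : Fin a => w (Fin.castAdd b j),
    fun j : Fin b => w (Fin.natAdd a j))) ?_ ?_ (Set.toFinite _)
  · rintro w ⟨y, hy, i, rfl⟩
    refine ⟨⟨y, hy, i, ?_⟩, ⟨y, hy, i + a, ?_⟩⟩
    · funext j; simp
    · funext j; simp [Nat.add_assoc]
  · intro w _ w' _ h
    simp only [Prod.mk.injEq] at h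
    funext j
    refine Fin.addCases (fun j => ?_) (fun j => ?_) j
    · exact congrFun h.1 j
    · exact congrFun h.2 j

/-- log-complexity -/
noncomputable def u (X : Set (ℕ → Bool)) (m : ℕ) : ℝ := Real.log ((lang X m).ncard : ℝ)

theorem u_subadd {X : Set (ℕ → Bool)} (h : X.Nonempty) : Subadditive (u X) := by
  intro a b
  have pos : ∀ m, (0 : ℝ) < ((lang X m).ncard : ℝ) := by
    intro m
    have := (Set.ncard_pos (lang_finite X m)).2 (lang_nonempty h m)
    exact_mod_cast this
  unfold u
  rw [← Real.log_mul (pos a).ne' (pos b).ne']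
  exact Real.log_le_log (pos _) (by exact_mod_cast lang_add X a b)

theorem u_nonneg (X : Set (ℕ → Bool)) (m : ℕ) : 0 ≤ u X m := by
  unfold u
  exact Real.log_natCast_nonneg _

/-- A numerical bound on the number of sparse subsets. -/
theorem sparse_card (R : ℕ) :
    ((Finset.univ : Finset (Finset (Fin R))).filter (fun s => s.card ≤ 4)).card ≤ (R + 1) ^ 4 := by
  classical
  have : ((Finset.univ : Finset (Finset (Fin R))).filter (fun s => s.card ≤ 4)) ⊆
      (Finset.univ : Finset (Fin 4 → Option (Fin R))).image
        (fun f => Finset.univ.filter (fun r => ∃ i, f i = some r)) := by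
    intro s hs
    rw [Finset.mem_filter] at hs
    rw [Finset.mem_image]
    refine ⟨fun i => s.toList[(i : ℕ)]?, Finset.mem_univ _, ?_⟩
    ext r
    rw [Finset.mem_filter]
    constructor
    · rintro ⟨_, i, hi⟩
      have := List.mem_of_getElem? hi
      exact Finset.mem_toList.1 this
    · intro hr
      refine ⟨Finset.mem_univ _, ?_⟩
      obtain ⟨i, hi, h⟩ := List.mem_iff_getElem.1 (Finset.mem_toList.2 hr)
      have h4 : i < 4 := by
        rw [Finset.length_toList] at hi; omega
      refine ⟨⟨i, h4⟩, ?_⟩
      show s.toList[i]? = some r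
      rw [List.getElem?_eq_getElem hi, h]
  refine (Finset.card_le_card this).trans (Finset.card_image_le.trans ?_)
  simp

/-- the code of a word: first letters and change sets of the columns -/
def code (R n : ℕ) (W : ℕ → Bool) : Fin n → Bool × Finset (Fin R) :=
  fun i => (W i, Finset.univ.filter (fun r : Fin R => W (i + r * n) ≠ W (i + (r + 1) * n)))

theorem code_inj {R n : ℕ} {W W' : ℕ → Bool} (h : code R n W = code R n W') :
    ∀ j, j < (R + 1) * n → W j = W' j := by
  intro j hj
  have hn : 0 < n := by
    rcases Nat.eq_zero_or_pos n with h0 | h0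
    · rw [h0] at hj; simp at hj
    · exact h0
  have key : ∀ i (hi : i < n) r, r ≤ R → W (i + r * n) = W' (i + r * n) := by
    intro i hi r
    have hc := congrFun h ⟨i, hi⟩
    simp only [code, Prod.mk.injEq] at hc
    induction r with
    | zero => intro _; simpa using hc.1
    | succ r ih =>
      intro hr
      have h1 := ih (by omega)
      have h2 := Finset.ext_iff.1 hc.2 ⟨r, by omega⟩
      simp only [Finset.mem_filter, Finset.mem_univ, true_and] at h2
      rw [h1] at h2
      generalize W (i + (r + 1) * n) = a at *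
      generalize W' (i + (r + 1) * n) = b at *
      generalize W' (i + r * n) = c at *
      revert h2
      cases a <;> cases b <;> cases c <;> simp
  have e : j = j % n + (j / n) * n := by
    have := Nat.mod_add_div j n
    rw [Nat.mul_comm] at this
    exact this.symm
  rw [e]
  refine key _ (Nat.mod_lt _ hn) _ ?_
  have : j / n < R + 1 := Nat.div_lt_of_lt_mul (by rw [Nat.mul_comm]; exact hj)
  omega

/-- number of unsaturated windows in an arithmetic progression -/
theorem few_deficits (y : ℕ → Bool) (n N R : ℕ) (hU : ∀ i, ones y i n ≤ N)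
    (hL : ∀ i, R * N ≤ ones y i (R * n + 2)) (i : ℕ) :
    ((Finset.range R).filter (fun r => ones y (i + r * n) n ≠ N)).card ≤ 2 := by
  have key : ∀ T, ones y i (T * n) +
      ((Finset.range T).filter (fun r => ones y (i + r * n) n ≠ N)).card ≤ T * N := by
    intro T
    induction T with
    | zero => simp [ones_zero]
    | succ T ih =>
      rw [Nat.succ_mul, ones_add, Finset.range_add_one, Finset.filter_insert]
      have e : (T + 1) * N = T * N + N := by ring
      split_ifs with h
      · rw [Finset.card_insert_of_notMem (by simp)]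
        have h1 := hU (i + T * n)
        have h2 : ones y (i + T * n) n < N := lt_of_le_of_ne h1 h
        omega
      · have h1 := hU (i + T * n)
        omega
  have h1 := key R
  have h2 := hL i
  rw [ones_add] at h2
  have h3 := ones_le y (i + R * n) 2
  omega

theorem change_imp (y : ℕ → Bool) (n N s : ℕ) (h1 : ones y s n = N) (h2 : ones y (s + 1) n = N) :
    y s = y (s + n) := by
  have e1 := ones_succ y s n
  have e2 := ones_add y s 1 n
  have e3 := ones_succ y s 0
  rw [ones_zero] at e3
  simp only [Nat.add_zero, Nat.zero_add] at e3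
  rw [Nat.add_comm 1 n, e1, e3, h1, h2] at e2
  by_cases ha : y s = true <;> by_cases hb : y (s + n) = true <;> simp [ha, hb] at e2 ⊢

theorem few_changes (y : ℕ → Bool) (n N R : ℕ) (hU : ∀ i, ones y i n ≤ N)
    (hL : ∀ i, R * N ≤ ones y i (R * n + 2)) (i : ℕ) :
    (Finset.univ.filter (fun r : Fin R => y (i + r * n) ≠ y (i + (r + 1) * n))).card ≤ 4 := by
  classical
  have h1 := few_deficits y n N R hU hL i
  have h2 := few_deficits y n N R hU hL (i + 1)
  have hsub : (Finset.univ.filter
      (fun r : Fin R => y (i + r * n) ≠ y (i + (r + 1) * n))).map Fin.valEmbedding ⊆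
      ((Finset.range R).filter (fun r => ones y (i + r * n) n ≠ N)) ∪
      ((Finset.range R).filter (fun r => ones y (i + 1 + r * n) n ≠ N)) := by
    intro r hr
    rw [Finset.mem_map] at hr
    obtain ⟨r', hr', rfl⟩ := hr
    rw [Finset.mem_filter] at hr'
    rw [Finset.mem_union, Finset.mem_filter, Finset.mem_filter]
    by_contra hcon
    push Not at hcon
    have hlt : (Fin.valEmbedding r' : ℕ) ∈ Finset.range R := by simp
    have a1 := hcon.1 hlt
    have a2 := hcon.2 hlt
    apply hr'.2
    have := change_imp y n N (i + r' * n) a1 (by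
      rw [show i + r' * n + 1 = i + 1 + r' * n by ring]; exact a2)
    rw [this]
    congr 1
    ring
  have := Finset.card_le_card hsub
  rw [Finset.card_map] at this
  refine this.trans ((Finset.card_union_le _ _).trans ?_)
  omega

theorem lang_bound (X : Set (ℕ → Bool)) (n N R : ℕ) (hU : ∀ y ∈ X, ∀ i, ones y i n ≤ N)
    (hL : ∀ y ∈ X, ∀ i, R * N ≤ ones y i (R * n + 2)) :
    (lang X ((R + 1) * n)).ncard ≤ (2 * (R + 1) ^ 4) ^ n := by
  classical
  set S := ((Finset.univ : Finset (Finset (Fin R))).filter (fun s => s.card ≤ 4)) with hS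
  set T : Finset (Fin n → Bool × Finset (Fin R)) :=
    Fintype.piFinset (fun _ => (Finset.univ : Finset Bool) ×ˢ S) with hT
  have hcard : T.card ≤ (2 * (R + 1) ^ 4) ^ n := by
    rw [hT, Fintype.card_piFinset_const, Finset.card_product]
    simp only [Finset.card_univ, Fintype.card_bool]
    exact Nat.pow_le_pow_left (Nat.mul_le_mul_left _ (sparse_card R)) _
  refine le_trans ?_ hcard
  rw [← Set.ncard_coe_finset]
  let ext : (Fin ((R + 1) * n) → Bool) → ℕ → Bool :=
    fun w j => if h : j < (R + 1) * n then w ⟨j, h⟩ else false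
  refine Set.ncard_le_ncard_of_injOn (fun w => code R n (ext w)) ?_ ?_ (Set.toFinite _)
  · rintro w ⟨y, hy, i0, rfl⟩
    rw [Finset.mem_coe, hT, Fintype.mem_piFinset]
    intro i
    rw [Finset.mem_product]
    refine ⟨Finset.mem_univ _, ?_⟩
    rw [hS, Finset.mem_filter]
    refine ⟨Finset.mem_univ _, ?_⟩
    have hext : ∀ j, j < (R + 1) * n → ext (fun j : Fin ((R + 1) * n) => y (i0 + (j : ℕ))) j =
        y (i0 + j) := by
      intro j hj
      simp only [ext, dif_pos hj]
    have hcode : (code R n (ext (fun j : Fin ((R + 1) * n) => y (i0 + (j : ℕ)))) i).2 =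
        Finset.univ.filter (fun r : Fin R => y (i0 + i + r * n) ≠ y (i0 + i + (r + 1) * n)) := by
      unfold code
      apply Finset.filter_congr
      intro r _
      have b1 : (r : ℕ) + 1 ≤ R := r.2
      have b2 : ((r : ℕ) + 1) * n ≤ R * n := Nat.mul_le_mul_right _ b1
      have b3 : (r : ℕ) * n ≤ ((r : ℕ) + 1) * n := Nat.mul_le_mul_right _ (by omega)
      have b4 : (R + 1) * n = R * n + n := by ring
      have b5 := i.2
      rw [hext _ (by omega), hext _ (by omega), Nat.add_assoc, Nat.add_assoc]
    rw [hcode]
    exact few_changes y n N R (hU y hy) (hL y hy) (i0 + i)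
  · intro w _ w' _ h
    funext j
    have := code_inj h j j.2
    simp only [ext, dif_pos j.2] at this
    exact this

theorem ab_upper {y : ℕ → Bool} (hy : y ∈ abClosure x) (k i : ℕ) : ones y i (n k) ≤ N k := by
  obtain ⟨j, hj⟩ := hy i (n k)
  rw [hj]; exact x_upper k j

theorem ab_lower {y : ℕ → Bool} (hy : y ∈ abClosure x) (k i : ℕ) :
    (k + 2) * N k ≤ ones y i ((k + 2) * n k + 2) := by
  obtain ⟨j, hj⟩ := hy i ((k + 2) * n k + 2)
  rw [hj, ← N_succ]
  have := x_lower (k + 1) j
  rw [n_succ] at this
  exact this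

theorem x_mem : x ∈ abClosure x := fun i _ => ⟨i, rfl⟩

theorem entropy_zero :
    Filter.Tendsto (fun m : ℕ => Real.log ((lang (abClosure x) m).ncard : ℝ) / m)
      Filter.atTop (nhds 0) := by
  have hsub := u_subadd (X := abClosure x) ⟨x, x_mem⟩
  have hbdd : BddBelow (Set.range fun m : ℕ => u (abClosure x) m / m) := by
    refine ⟨0, ?_⟩
    rintro _ ⟨m, rfl⟩
    exact div_nonneg (u_nonneg _ _) (Nat.cast_nonneg _)
  have htend := hsub.tendsto_lim hbdd
  have hlim : hsub.lim = 0 := by
    apply le_antisymm
    · have hle : ∀ k : ℕ, hsub.lim ≤ Real.log 2 / (k + 3) + 4 * (Real.log ((k : ℝ) + 3) / (k + 3)) := by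
        intro k
        have hn : 0 < n k := lt_of_le_of_lt (Nat.zero_le _) (lt_n k)
        have hne : (k + 2 + 1) * n k ≠ 0 := by positivity
        refine (hsub.lim_le_div hbdd hne).trans ?_
        have hb := lang_bound (abClosure x) (n k) (N k) (k + 2) (fun y hy i => ab_upper hy k i)
          (fun y hy i => ab_lower hy k i)
        have hb' : u (abClosure x) ((k + 2 + 1) * n k) ≤
            (n k : ℝ) * (Real.log 2 + 4 * Real.log ((k : ℝ) + 3)) := by
          unfold u
          have hpos : (0 : ℝ) < ((lang (abClosure x) ((k + 2 + 1) * n k)).ncard : ℝ) := by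
            have := (Set.ncard_pos (lang_finite (abClosure x) ((k + 2 + 1) * n k))).2
              (lang_nonempty ⟨x, x_mem⟩ _)
            exact_mod_cast this
          have h3 : ((lang (abClosure x) ((k + 2 + 1) * n k)).ncard : ℝ) ≤
              (2 * ((k : ℝ) + 3) ^ 4) ^ (n k) := by
            have : ((lang (abClosure x) ((k + 2 + 1) * n k)).ncard : ℝ) ≤
              (((2 * (k + 2 + 1) ^ 4) ^ (n k) : ℕ) : ℝ) := by exact_mod_cast hb
            refine this.trans (le_of_eq ?_)
            push_cast
            ring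
          refine (Real.log_le_log hpos h3).trans (le_of_eq ?_)
          rw [Real.log_pow, Real.log_mul (by norm_num) (by positivity), Real.log_pow]
          push_cast
          ring
        have hnr : (0 : ℝ) < (n k : ℝ) := by exact_mod_cast hn
        have hk3 : (0 : ℝ) < (k : ℝ) + 3 := by positivity
        rw [div_le_iff₀ (by positivity)]
        refine hb'.trans (le_of_eq ?_)
        push_cast
        field_simp
        ring
      have ht : Filter.Tendsto (fun k : ℕ => Real.log 2 / ((k : ℝ) + 3) +
          4 * (Real.log ((k : ℝ) + 3) / ((k : ℝ) + 3))) Filter.atTop (nhds 0) := by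
        have hk : Filter.Tendsto (fun k : ℕ => (k : ℝ) + 3) Filter.atTop Filter.atTop :=
          Filter.tendsto_atTop_add_const_right _ _ tendsto_natCast_atTop_atTop
        have h1 : Filter.Tendsto (fun k : ℕ => Real.log 2 / ((k : ℝ) + 3)) Filter.atTop (nhds 0) :=
          Filter.Tendsto.const_div_atTop hk _
        have h2 : Filter.Tendsto (fun k : ℕ => Real.log ((k : ℝ) + 3) / ((k : ℝ) + 3))
            Filter.atTop (nhds 0) := by
          have := Real.tendsto_pow_log_div_mul_add_atTop 1 0 1 one_ne_zero
          simp only [pow_one, one_mul, add_zero] at this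
          exact this.comp hk
        have := h1.add (h2.const_mul 4)
        simpa using this
      exact ge_of_tendsto' ht hle
    · refine ge_of_tendsto' htend (fun m => ?_)
      exact div_nonneg (u_nonneg _ _) (Nat.cast_nonneg _)
  rw [hlim] at htend
  exact htend

end Pool.Agent.X181.AC
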