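import Mathlib

namespace Pool.Agent.X181.AC

/-- number of ones in the factor `x_i ... x_{i+n-1}` -/
def ones (x : ℕ → Bool) (i n : ℕ) : ℕ := ((Finset.range n).filter (fun k => x (i + k) = true)).card

/-- initial weights of a list -/
def H (w : List Bool) (i : ℕ) : ℕ := (w.take i).count true

theorem H_mono (w : List Bool) {i j : ℕ} (h : i ≤ j) : H w i ≤ H w j := by
  unfold H
  have : w.take i <+: w.take j := List.take_prefix_take_left h
  exact this.sublist.count_le _

theorem H_full (w : List Bool) {i : ℕ} (h : w.length ≤ i) : H w i = w.count true := by
  unfold H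
  rw [List.take_of_length_le h]

theorem H_append_left (u v : List Bool) {i : ℕ} (h : i ≤ u.length) : H (u ++ v) i = H u i := by
  unfold H
  rw [List.take_append_of_le_length h]

theorem H_append_right (u v : List Bool) (i : ℕ) :
    H (u ++ v) (u.length + i) = u.count true + H v i := by
  unfold H
  rw [List.take_length_add_append, List.count_append]

/-- The words `A_k`. -/
def A : ℕ → List Bool
  | 0 => [true, true, false, false, true]
  | k + 1 => (List.replicate (k + 1) (A k)).flatten ++ (false :: A k)

/-- words that decompose as blocks `A_k` with at most one `0` between consecutive blocks -/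
inductive Good (k : ℕ) : List Bool → Prop
  | base : Good k (A k)
  | app (w : List Bool) : Good k w → Good k (A k ++ w)
  | zero (w : List Bool) : Good k w → Good k (A k ++ (false :: w))

theorem Good.append {k : ℕ} {u v : List Bool} (hu : Good k u) (hv : Good k v) : Good k (u ++ v) := by
  induction hu with
  | base => exact Good.app v hv
  | app w _ ih => rw [List.append_assoc]; exact Good.app _ ih
  | zero w _ ih => rw [List.append_assoc, List.cons_append]; exact Good.zero _ ih

theorem Good.append0 {k : ℕ} {u v : List Bool} (hu : Good k u) (hv : Good k v) :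
    Good k (u ++ (false :: v)) := by
  induction hu with
  | base => exact Good.zero v hv
  | app w _ ih => rw [List.append_assoc]; exact Good.app _ ih
  | zero w _ ih => rw [List.append_assoc, List.cons_append]; exact Good.zero _ ih

theorem Good.rep {k : ℕ} {u : List Bool} (hu : Good k u) (m : ℕ) :
    Good k (List.replicate (m + 1) u).flatten := by
  induction m with
  | zero => simpa using hu
  | succ m ih =>
    rw [List.replicate_succ, List.flatten_cons]
    exact hu.append ih

theorem good_A (k d : ℕ) : Good k (A (k + d)) := by
  induction d with
  | zero => exact Good.base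
  | succ d ih =>
    show Good k ((List.replicate (k + d + 1) (A (k + d))).flatten ++ (false :: A (k + d)))
    exact (ih.rep _).append0 ih

/-- length and weight of `A_k` -/
def n (k : ℕ) : ℕ := (A k).length
def N (k : ℕ) : ℕ := (A k).count true

theorem n_succ (k : ℕ) : n (k + 1) = (k + 2) * n k + 1 := by
  unfold n
  show ((List.replicate (k + 1) (A k)).flatten ++ (false :: A k)).length = _
  rw [List.length_append, List.length_flatten, List.map_replicate, List.sum_replicate]
  simp only [List.length_cons, smul_eq_mul]
  ring

theorem N_succ (k : ℕ) : N (k + 1) = (k + 2) * N k := by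
  unfold N
  show ((List.replicate (k + 1) (A k)).flatten ++ (false :: A k)).count true = _
  rw [List.count_append, List.count_flatten, List.map_replicate, List.sum_replicate]
  rw [List.count_cons]
  simp only [smul_eq_mul]
  simp
  ring

theorem n_zero : n 0 = 5 := rfl
theorem N_zero : N 0 = 3 := rfl

theorem N_pos (k : ℕ) : 0 < N k := by
  induction k with
  | zero => rw [N_zero]; norm_num
  | succ k ih => rw [N_succ]; positivity

theorem lt_n (k : ℕ) : k < n k := by
  induction k with
  | zero => rw [n_zero]; norm_num
  | succ k ih => rw [n_succ]; nlinarith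

theorem N_le_n (k : ℕ) : N k ≤ n k := List.count_le_length

/-- `A_k` begins every good word -/
theorem Good.pfx {k : ℕ} {w : List Bool} (h : Good k w) : A k <+: w := by
  cases h with
  | base => exact List.prefix_rfl
  | app w _ => exact List.prefix_append _ _
  | zero w _ => exact List.prefix_append _ _

theorem H_pfx {u w : List Bool} (h : u <+: w) {i : ℕ} (hi : i ≤ u.length) : H w i = H u i := by
  obtain ⟨t, rfl⟩ := h
  exact H_append_left _ _ hi

theorem H_pfx' {k : ℕ} {w : List Bool} (h : Good k w) {i : ℕ} (hi : i ≤ n k) :
    H w i = H (A k) i := H_pfx h.pfx hi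

theorem good_upper {k : ℕ} {w : List Bool} (h : Good k w) :
    ∀ i, i + n k ≤ w.length → H w (i + n k) ≤ H w i + N k := by
  induction h with
  | base =>
    intro i hi
    have : i = 0 := by unfold n at hi; omega
    subst this
    rw [H_full _ (by unfold n; omega)]
    unfold N; omega
  | app w hw ih =>
    intro i hi
    have hl : (A k).length = n k := rfl
    rcases le_or_gt i (n k) with h1 | h1
    · have e1 : i + n k = (A k).length + i := by rw [hl]; ring
      rw [e1, H_append_right, H_append_left _ _ (by rw [hl]; exact h1), H_pfx' hw h1]
      show N k + _ ≤ _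
      omega
    · obtain ⟨j, rfl⟩ : ∃ j, i = n k + j := ⟨i - n k, by omega⟩
      have e1 : n k + j + n k = (A k).length + (j + n k) := by rw [hl]; ring
      have e2 : n k + j = (A k).length + j := by rw [hl]
      rw [e1, H_append_right, e2, H_append_right]
      have := ih j (by rw [List.length_append, hl] at hi; omega)
      omega
  | zero w hw ih =>
    intro i hi
    have hl : (A k ++ [false]).length = n k + 1 := by simp [n]
    have hc : (A k ++ [false]).count true = N k := by simp [N]
    have e0 : A k ++ (false :: w) = (A k ++ [false]) ++ w := by simp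
    rw [e0] at hi ⊢
    rcases Nat.lt_trichotomy i (n k) with h1 | h1 | h1
    · -- i < n k
      rcases Nat.eq_zero_or_pos i with h0 | h0
      · subst h0
        have a1 : H ((A k ++ [false]) ++ w) (0 + n k) ≤ (A k).count true := by
          rw [List.append_assoc, H_append_left _ _ (by show 0 + n k ≤ n k; omega)]
          exact (List.take_sublist _ _).count_le _
        unfold N; omega
      · obtain ⟨j, rfl⟩ : ∃ j, i = j + 1 := ⟨i - 1, by omega⟩
        have e1 : j + 1 + n k = (A k ++ [false]).length + j := by rw [hl]; ring
        rw [e1, H_append_right, hc, H_pfx' hw (by omega)]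
        rw [List.append_assoc, H_append_left _ _ (by show j + 1 ≤ n k; omega)]
        have := H_mono (A k) (Nat.le_succ j)
        have h2 : H (A k) (j + 1) = H (A k) (Nat.succ j) := rfl
        omega
    · subst h1
      have hnp : 0 < n k := lt_of_le_of_lt (Nat.zero_le _) (lt_n k)
      obtain ⟨m, hm⟩ : ∃ m, n k = m + 1 := ⟨n k - 1, by omega⟩
      have e1 : n k + n k = (A k ++ [false]).length + m := by rw [hl]; omega
      rw [e1, H_append_right, hc, H_pfx' hw (by omega)]
      rw [List.append_assoc, H_append_left _ _ (by show n k ≤ n k; omega)]
      have := H_mono (A k) (show m ≤ n k by omega)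
      omega
    · obtain ⟨j, rfl⟩ : ∃ j, i = n k + 1 + j := ⟨i - (n k + 1), by omega⟩
      have e1 : n k + 1 + j + n k = (A k ++ [false]).length + (j + n k) := by rw [hl]; ring
      have e2 : n k + 1 + j = (A k ++ [false]).length + j := by rw [hl]
      rw [e1, H_append_right, e2, H_append_right]
      have := ih j (by rw [List.length_append, hl] at hi; omega)
      omega

theorem good_lower {k : ℕ} {w : List Bool} (h : Good k w) :
    ∀ i, i + n k + 1 ≤ w.length → H w i + N k ≤ H w (i + n k + 1) := by
  induction h with
  | base =>
    intro i hi
    exfalso; unfold n at hi; omega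
  | app w hw ih =>
    intro i hi
    have hl : (A k).length = n k := rfl
    rcases lt_or_ge i (n k) with h1 | h1
    · have e1 : i + n k + 1 = (A k).length + (i + 1) := by rw [hl]; ring
      rw [e1, H_append_right, H_append_left _ _ (by rw [hl]; omega), H_pfx' hw (by omega)]
      have := H_mono (A k) (Nat.le_succ i)
      show _ ≤ N k + _
      have h2 : H (A k) (i + 1) = H (A k) (Nat.succ i) := rfl
      omega
    · obtain ⟨j, rfl⟩ : ∃ j, i = n k + j := ⟨i - n k, by omega⟩
      have e1 : n k + j + n k + 1 = (A k).length + (j + n k + 1) := by rw [hl]; ring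
      have e2 : n k + j = (A k).length + j := by rw [hl]
      rw [e1, H_append_right, e2, H_append_right]
      have := ih j (by rw [List.length_append, hl] at hi; omega)
      omega
  | zero w hw ih =>
    intro i hi
    have hl : (A k ++ [false]).length = n k + 1 := by simp [n]
    have hc : (A k ++ [false]).count true = N k := by simp [N]
    have e0 : A k ++ (false :: w) = (A k ++ [false]) ++ w := by simp
    rw [e0] at hi ⊢
    rcases le_or_gt i (n k) with h1 | h1
    · have e1 : i + n k + 1 = (A k ++ [false]).length + i := by rw [hl]; ring
      rw [e1, H_append_right, hc, H_pfx' hw (by omega)]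
      rw [List.append_assoc, H_append_left _ _ (by show i ≤ n k; omega)]
      omega
    · obtain ⟨j, rfl⟩ : ∃ j, i = n k + 1 + j := ⟨i - (n k + 1), by omega⟩
      have e1 : n k + 1 + j + n k + 1 = (A k ++ [false]).length + (j + n k + 1) := by rw [hl]; ring
      have e2 : n k + 1 + j = (A k ++ [false]).length + j := by rw [hl]
      rw [e1, H_append_right, e2, H_append_right]
      have := ih j (by rw [List.length_append, hl] at hi; omega)
      omega

/-- occurrences of `A_k` in a good word -/
theorem good_occ {k : ℕ} {w : List Bool} (h : Good k w) :
    ∀ j, j + n k ≤ w.length → ∃ m, j ≤ m ∧ m ≤ j + n k ∧ A k <+: w.drop m := by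
  induction h with
  | base =>
    intro j hj
    have : j = 0 := by unfold n at hj; omega
    subst this
    exact ⟨0, le_refl _, by omega, by simp⟩
  | app w hw ih =>
    intro j hj
    have hl : (A k).length = n k := rfl
    rcases Nat.eq_zero_or_pos j with h0 | h0
    · subst h0
      exact ⟨0, le_refl _, by omega, by simp⟩
    · rcases le_or_gt j (n k) with h1 | h1
      · refine ⟨n k, h1, by omega, ?_⟩
        rw [← hl, List.drop_left]
        exact hw.pfx
      · obtain ⟨m, h2, h3, h4⟩ := ih (j - n k) (by rw [List.length_append, hl] at hj; omega)
        refine ⟨n k + m, by omega, by omega, ?_⟩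
        rw [← hl, ← List.drop_drop, List.drop_left]
        exact h4
  | zero w hw ih =>
    intro j hj
    have hl : (A k ++ [false]).length = n k + 1 := by simp [n]
    have e0 : A k ++ (false :: w) = (A k ++ [false]) ++ w := by simp
    rcases Nat.eq_zero_or_pos j with h0 | h0
    · subst h0
      exact ⟨0, le_refl _, by omega, by simp⟩
    · rw [e0] at hj ⊢
      rcases le_or_gt j (n k + 1) with h1 | h1
      · refine ⟨n k + 1, h1, by omega, ?_⟩
        rw [← hl, List.drop_left]
        exact hw.pfx
      · obtain ⟨m, h2, h3, h4⟩ := ih (j - (n k + 1)) (by rw [List.length_append, hl] at hj; omega)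
        refine ⟨n k + 1 + m, by omega, by omega, ?_⟩
        rw [← hl, ← List.drop_drop, List.drop_left]
        exact h4

end Pool.Agent.X181.AC
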