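import Pool.Agent.X181.AC.Count

namespace Pool.Agent.X181.AC

/-- the shift -/
def shift (y : ℕ → Bool) : ℕ → Bool := fun i => y (i + 1)

/-- nonempty closed shift-invariant sets -/
def Inv (Z : Set (ℕ → Bool)) : Prop := Z.Nonempty ∧ IsClosed Z ∧ ∀ y ∈ Z, shift y ∈ Z

/-- minimal subshifts -/
def MinSub (M : Set (ℕ → Bool)) : Prop := Inv M ∧ ∀ M' : Set (ℕ → Bool), Inv M' → M' ⊆ M → M' = M

theorem exists_minSub {Z : Set (ℕ → Bool)} (hZ : Inv Z) : ∃ M, M ⊆ Z ∧ MinSub M := by
  obtain ⟨M, hMZ, hM⟩ := zorn_superset_nonempty {M | Inv M} (by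
    intro c hc hchain hne
    refine ⟨⋂₀ c, ⟨?_, ?_, ?_⟩, fun s hs => Set.sInter_subset_of_mem hs⟩
    · have : Nonempty c := hne.to_subtype
      apply IsCompact.nonempty_sInter_of_directed_nonempty_isCompact_isClosed
      · intro a ha b hb
        rcases hchain.total ha hb with h | h
        · exact ⟨a, ha, subset_rfl, h⟩
        · exact ⟨b, hb, h, subset_rfl⟩
      · exact fun s hs => (hc hs).1
      · exact fun s hs => (hc hs).2.1.isCompact
      · exact fun s hs => (hc hs).2.1
    · exact isClosed_sInter fun s hs => (hc hs).2.1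
    · intro y hy
      rw [Set.mem_sInter] at hy ⊢
      exact fun s hs => (hc hs).2.2 y (hy s hs)) Z hZ
  refine ⟨M, hMZ, hM.prop, fun M' hM' hsub => ?_⟩
  exact Set.Subset.antisymm hsub (hM.le_of_le hM' hsub)

/-- a family argument for uncountably many minimal subshifts -/
theorem uncountable_min {B : Set (ℕ → Bool)} {S : Set ℝ} (hS : ¬ S.Countable)
    (Z : ℝ → Set (ℕ → Bool)) (hZ : ∀ s ∈ S, Inv (Z s)) (hB : ∀ s ∈ S, Z s ⊆ B)
    (hdisj : ∀ s ∈ S, ∀ s' ∈ S, ∀ s'' ∈ S, s < s' → s' < s'' → Disjoint (Z s) (Z s'')) :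
    ¬ {M : Set (ℕ → Bool) | MinSub M ∧ M ⊆ B}.Countable := by
  intro hcount
  have hex : ∀ s : ℝ, ∃ M, s ∈ S → (M ⊆ Z s ∧ MinSub M) := by
    intro s
    by_cases hs : s ∈ S
    · obtain ⟨M, hM⟩ := exists_minSub (hZ s hs)
      exact ⟨M, fun _ => hM⟩
    · exact ⟨∅, fun h => absurd h hs⟩
  choose f hf using hex
  apply hS
  have hcov : S ⊆ ⋃ M ∈ {M : Set (ℕ → Bool) | MinSub M ∧ M ⊆ B}, {s ∈ S | f s = M} := by
    intro s hs
    rw [Set.mem_iUnion₂]
    exact ⟨f s, ⟨(hf s hs).2, (hf s hs).1.trans (hB s hs)⟩, hs, rfl⟩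
  refine Set.Countable.mono hcov (hcount.biUnion fun M _ => ?_)
  -- each fibre has at most two elements
  by_contra hunc
  have key : ∀ s s' s'', s ∈ S → s' ∈ S → s'' ∈ S → f s = M → f s'' = M → s < s' → s' < s'' →
      False := by
    intro s s' s'' h1 h2 h3 h4 h5 h6 h7
    have hd := hdisj s h1 s' h2 s'' h3 h6 h7
    obtain ⟨z, hz⟩ := (hf s h1).2.1.1
    rw [Set.disjoint_left] at hd
    refine hd ((hf s h1).1 hz) ((hf s'' h3).1 ?_)
    rw [h5, ← h4]; exact hz
  have h1 : ({s ∈ S | f s = M}).Nonempty := by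
    by_contra h
    rw [Set.not_nonempty_iff_eq_empty] at h
    rw [h] at hunc; exact hunc Set.countable_empty
  obtain ⟨a, ha⟩ := h1
  have h2 : ({s ∈ S | f s = M} \ {a}).Nonempty := by
    by_contra h
    rw [Set.not_nonempty_iff_eq_empty, Set.sdiff_eq_empty] at h
    exact hunc ((Set.countable_singleton a).mono h)
  obtain ⟨b, hb, hba⟩ := h2
  have h3 : ({s ∈ S | f s = M} \ {a, b}).Nonempty := by
    by_contra h
    rw [Set.not_nonempty_iff_eq_empty, Set.sdiff_eq_empty] at h
    exact hunc ((Set.to_countable {a, b}).mono h)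
  obtain ⟨c, hc, hcab⟩ := h3
  have hba' : b ≠ a := hba
  have hca : c ≠ a := fun h => hcab (by rw [h]; simp)
  have hcb : c ≠ b := fun h => hcab (by rw [h]; simp)
  obtain ⟨haS, haM⟩ := ha
  obtain ⟨hbS, hbM⟩ := hb
  obtain ⟨hcS, hcM⟩ := hc
  rcases lt_or_gt_of_ne hba' with h1 | h1 <;> rcases lt_or_gt_of_ne hca with h2 | h2 <;>
    rcases lt_or_gt_of_ne hcb with h3 | h3
  · exact key c b a hcS hbS haS hcM haM h3 h1
  · exact key b c a hbS hcS haS hbM haM h3 h2
  · exact absurd (h3.trans h1) (not_lt.2 h2.le)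
  · exact key b a c hbS haS hcS hbM hcM h1 h2
  · exact key c a b hcS haS hbS hcM hbM h2 h1
  · exact absurd (h2.trans h1) (not_lt.2 h3.le)
  · exact key a c b haS hcS hbS haM hbM h2 h3
  · exact key a b c haS hbS hcS haM hcM h1 h3

theorem continuous_ones (i m : ℕ) : Continuous fun y : ℕ → Bool => (ones y i m : ℝ) := by
  induction m with
  | zero => simp only [ones_zero]; exact continuous_const
  | succ m ih =>
    have : (fun y : ℕ → Bool => (ones y i (m + 1) : ℝ)) =
        fun y => (ones y i m : ℝ) + (fun b : Bool => if b = true then (1 : ℝ) else 0) (y (i + m)) := by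
      funext y
      rw [ones_succ]; push_cast; rfl
    rw [this]
    have hc : Continuous (fun b : Bool => if b = true then (1 : ℝ) else 0) :=
      continuous_of_discreteTopology
    exact ih.add (hc.comp (continuous_apply (i + m)))

/-- words all of whose factors are factors of `x` -/
def Hull (x : ℕ → Bool) : Set (ℕ → Bool) :=
  {y | ∀ i m : ℕ, ∃ j : ℕ, ∀ s < m, y (i + s) = x (j + s)}

theorem isClosed_hull (x : ℕ → Bool) : IsClosed (Hull x) := by
  have : Hull x = ⋂ i : ℕ, ⋂ m : ℕ,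
      (fun y : ℕ → Bool => fun s : Fin m => y (i + (s : ℕ))) ⁻¹'
        {w | ∃ j : ℕ, ∀ s : Fin m, w s = x (j + (s : ℕ))} := by
    ext y
    simp only [Hull, Set.mem_ofPred_eq, Set.mem_iInter, Set.mem_preimage]
    constructor
    · intro h i m
      obtain ⟨j, hj⟩ := h i m
      exact ⟨j, fun s => hj s s.2⟩
    · intro h i m
      obtain ⟨j, hj⟩ := h i m
      exact ⟨j, fun s hs => hj ⟨s, hs⟩⟩
  rw [this]
  refine isClosed_iInter fun i => isClosed_iInter fun m => ?_
  refine IsClosed.preimage ?_ (isClosed_discrete _)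
  exact continuous_pi fun s => continuous_apply _

theorem isClosed_abClosure (x : ℕ → Bool) : IsClosed (abClosure x) := by
  have : abClosure x = ⋂ i : ℕ, ⋂ m : ℕ,
      (fun y : ℕ → Bool => (ones y i m : ℝ)) ⁻¹' ((fun k : ℕ => (k : ℝ)) '' {k | ∃ j, k = ones x j m}) := by
    ext y
    simp only [abClosure, Set.mem_ofPred_eq, Set.mem_iInter, Set.mem_preimage, Set.mem_image]
    constructor
    · intro h i m
      obtain ⟨j, hj⟩ := h i m
      exact ⟨ones y i m, ⟨j, hj⟩, rfl⟩
    · intro h i m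
      obtain ⟨k, ⟨j, hj⟩, hk⟩ := h i m
      have : k = ones y i m := by exact_mod_cast hk
      exact ⟨j, by rw [← this]; exact hj⟩
  rw [this]
  refine isClosed_iInter fun i => isClosed_iInter fun m => ?_
  refine IsClosed.preimage (continuous_ones i m) ?_
  exact Nat.isClosedEmbedding_coe_real.isClosedMap _ (isClosed_discrete _)

theorem ones_shift (y : ℕ → Bool) (i m : ℕ) : ones (shift y) i m = ones y (i + 1) m := by
  unfold ones shift
  congr 1
  apply Finset.filter_congr
  intro k _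
  rw [show i + k + 1 = i + 1 + k by ring]

theorem shift_mem_abClosure {x y : ℕ → Bool} (h : y ∈ abClosure x) : shift y ∈ abClosure x := by
  intro i m
  obtain ⟨j, hj⟩ := h (i + 1) m
  exact ⟨j, by rw [ones_shift]; exact hj⟩

theorem shift_mem_hull {x y : ℕ → Bool} (h : y ∈ Hull x) : shift y ∈ Hull x := by
  intro i m
  obtain ⟨j, hj⟩ := h (i + 1) m
  refine ⟨j, fun s hs => ?_⟩
  unfold shift
  rw [show i + s + 1 = i + 1 + s by ring]
  exact hj s hs

theorem hull_self (x : ℕ → Bool) : x ∈ Hull x := fun i _ => ⟨i, fun _ _ => rfl⟩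

theorem ones_congr {y z : ℕ → Bool} {i j m : ℕ} (h : ∀ s < m, y (i + s) = z (j + s)) :
    ones y i m = ones z j m := by
  unfold ones
  congr 1
  apply Finset.filter_congr
  intro k hk
  rw [h k (Finset.mem_range.1 hk)]

/-- every factor of a uniformly recurrent `x` occurs in all elements of the hull with uniformly
bounded gaps -/
theorem hull_rec {x : ℕ → Bool} (hx : UnifRec x) (j m : ℕ) :
    ∃ K : ℕ, ∀ y ∈ Hull x, ∀ i : ℕ, ∃ p : ℕ, i ≤ p ∧ p ≤ i + K ∧ ∀ s < m, y (p + s) = x (j + s) := by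
  obtain ⟨K, hK⟩ := hx j m
  refine ⟨K, fun y hy i => ?_⟩
  obtain ⟨q, hq⟩ := hy i (K + m)
  obtain ⟨p, hp1, hp2, hp3⟩ := hK q
  refine ⟨i + (p - q), by omega, by omega, fun s hs => ?_⟩
  have h1 := hq (p - q + s) (by omega)
  rw [← Nat.add_assoc, ← Nat.add_assoc, show q + (p - q) = p by omega] at h1
  rw [h1, hp3 s hs]

/-- discrete intermediate value property for abelian classes -/
theorem ones_ivt (x : ℕ → Bool) (m c j1 j2 : ℕ) (h1 : ones x j1 m ≤ c) (h2 : c ≤ ones x j2 m) :
    ∃ j, c = ones x j m := by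
  have step : ∀ j, ones x (j + 1) m ≤ ones x j m + 1 ∧ ones x j m ≤ ones x (j + 1) m + 1 := by
    intro j
    have e1 := ones_succ x j m
    have e2 := ones_add x j 1 m
    have e3 := ones_succ x j 0
    rw [ones_zero] at e3
    simp only [Nat.add_zero, Nat.zero_add] at e3
    rw [Nat.add_comm 1 m] at e2
    constructor
    · have : ones x j (m + 1) ≤ ones x j m + 1 := by rw [e1]; split_ifs <;> omega
      omega
    · have : ones x j 1 ≤ 1 := ones_le _ _ _
      have h : ones x j m ≤ ones x j (m + 1) := by rw [e1]; omega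
      omega
  rcases le_total j1 j2 with h | h
  · obtain ⟨d, rfl⟩ := Nat.exists_eq_add_of_le h
    clear h
    induction d with
    | zero => exact ⟨j1, le_antisymm h2 h1⟩
    | succ d ih =>
      by_cases hc : c ≤ ones x (j1 + d) m
      · exact ih hc
      · refine ⟨j1 + (d + 1), le_antisymm h2 ?_⟩
        have := (step (j1 + d)).1
        rw [Nat.add_assoc] at this
        omega
  · obtain ⟨d, rfl⟩ := Nat.exists_eq_add_of_le h
    clear h
    induction d with
    | zero => exact ⟨j2, le_antisymm h2 h1⟩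
    | succ d ih =>
      by_cases hc : ones x (j2 + d) m ≤ c
      · exact ih hc
      · refine ⟨j2 + (d + 1), le_antisymm ?_ h1⟩
        have := (step (j2 + d)).2
        rw [Nat.add_assoc] at this
        omega

end Pool.Agent.X181.AC
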