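import Pool.Agent.X181.AC.Case1

namespace Pool.Agent.X181.AC

theorem factors_finite (x : ℕ → Bool) (m : ℕ) : (factors x m).Finite := Set.toFinite _

/-- restriction of words -/
def res (m : ℕ) (w : Fin (m + 1) → Bool) : Fin m → Bool := fun j => w j.castSucc

theorem res_image (x : ℕ → Bool) (m : ℕ) : res m '' factors x (m + 1) = factors x m := by
  ext w
  constructor
  · rintro ⟨_, ⟨i, rfl⟩, rfl⟩
    exact ⟨i, rfl⟩
  · rintro ⟨i, rfl⟩
    exact ⟨_, ⟨i, rfl⟩, rfl⟩

/-- Morse–Hedlund -/
theorem morse_hedlund {x : ℕ → Bool} (hx : Aperiodic x) (m : ℕ) : m + 1 ≤ (factors x m).ncard := by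
  have hlt : ∀ m, (factors x m).ncard < (factors x (m + 1)).ncard := by
    intro m
    have h1 : (factors x m).ncard ≤ (factors x (m + 1)).ncard := by
      rw [← res_image]; exact Set.ncard_image_le (factors_finite x _)
    refine lt_of_le_of_ne h1 (fun heq => hx ?_)
    have hinj : Set.InjOn (res m) (factors x (m + 1)) := by
      apply Set.injOn_of_ncard_image_eq _ (factors_finite x _)
      rw [res_image]; exact heq
    have hdet : ∀ i j, (∀ s < m, x (i + s) = x (j + s)) → x (i + m) = x (j + m) := by
      intro i j h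
      have h2 := hinj (⟨i, rfl⟩ : (fun s : Fin (m + 1) => x (i + (s : ℕ))) ∈ factors x (m + 1))
        (⟨j, rfl⟩ : (fun s : Fin (m + 1) => x (j + (s : ℕ))) ∈ factors x (m + 1)) (by
          funext s
          exact h s s.2)
      exact congrFun h2 (Fin.last m)
    obtain ⟨i, j, hij, hf⟩ := Finite.exists_ne_map_eq_of_infinite
      (fun i : ℕ => (fun s : Fin m => x (i + (s : ℕ))))
    have main : ∀ i j, i < j → (fun s : Fin m => x (i + (s : ℕ))) = (fun s : Fin m => x (j + (s : ℕ))) →
        ∃ p : ℕ, 0 < p ∧ ∃ M : ℕ, ∀ t ≥ M, x (t + p) = x t := by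
      intro i j hij hf
      have hall : ∀ s, x (i + s) = x (j + s) := by
        intro s
        induction s using Nat.strong_induction_on with
        | _ s ih =>
          rcases lt_or_ge s m with h | h
          · exact congrFun hf ⟨s, h⟩
          · have := hdet (i + (s - m)) (j + (s - m)) (fun r hr => by
              rw [Nat.add_assoc, Nat.add_assoc]; exact ih _ (by omega))
            rw [Nat.add_assoc, Nat.add_assoc, Nat.sub_add_cancel h] at this
            exact this
      refine ⟨j - i, by omega, i, fun t ht => ?_⟩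
      have := hall (t - i)
      rw [show i + (t - i) = t by omega, show j + (t - i) = t + (j - i) by omega] at this
      exact this.symm
    rcases lt_or_gt_of_ne hij with h | h
    · exact main i j h hf
    · exact main j i h hf.symm
  induction m with
  | zero =>
    have : (factors x 0).Nonempty := ⟨_, 0, rfl⟩
    have := (Set.ncard_pos (factors_finite x 0)).2 this
    omega
  | succ m ih => have := hlt m; omega

/-- balanced words -/
def Bal (x : ℕ → Bool) : Prop := ∀ i j m, ones x i m ≤ ones x j m + 1

theorem last_diff {f g : ℕ → Bool} {m : ℕ} (h : ∃ s, s < m ∧ f s ≠ g s) :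
    ∃ t, t < m ∧ f t ≠ g t ∧ ∀ s, t < s → s < m → f s = g s := by
  induction m with
  | zero => obtain ⟨s, hs, _⟩ := h; omega
  | succ m ih =>
    by_cases hm : f m = g m
    · obtain ⟨s, hs, hne⟩ := h
      have hsm : s < m := by
        rcases Nat.lt_succ_iff_lt_or_eq.1 hs with h | h
        · exact h
        · subst h; exact absurd hm hne
      obtain ⟨t, ht1, ht2, ht3⟩ := ih ⟨s, hsm, hne⟩
      refine ⟨t, by omega, ht2, fun r hr1 hr2 => ?_⟩
      rcases Nat.lt_succ_iff_lt_or_eq.1 hr2 with h | h
      · exact ht3 r hr1 h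
      · rw [h]; exact hm
    · exact ⟨m, by omega, hm, fun s h1 h2 => by omega⟩

theorem bal_contra {x : ℕ → Bool} (hb : Bal x) {i j m t : ℕ} (ht : t < m)
    (h1 : x (i + t) = true) (h2 : x (j + t) = false)
    (h3 : ∀ s, t < s → s < m → x (i + s) = x (j + s))
    (h4 : x (i + m) = true) (h5 : x (j + m) = false) : False := by
  obtain ⟨r, rfl⟩ : ∃ r, m = t + 1 + r := ⟨m - (t + 1), by omega⟩
  have hmid : ones x (i + t + 1) r = ones x (j + t + 1) r := by
    apply ones_congr
    intro s hs
    rw [show i + t + 1 + s = i + (t + 1 + s) by ring, show j + t + 1 + s = j + (t + 1 + s) by ring]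
    exact h3 _ (by omega) (by omega)
  have e : ∀ i, ones x (i + t) (1 + (r + 1)) = ones x (i + t) 1 + ones x (i + t + 1) (r + 1) :=
    fun i => ones_add x (i + t) 1 (r + 1)
  have e' : ∀ i, ones x (i + t + 1) (r + 1) = ones x (i + t + 1) r +
      (if x (i + t + 1 + r) = true then 1 else 0) := fun i => ones_succ x _ _
  have e'' : ∀ i, ones x (i + t) 1 = (if x (i + t) = true then 1 else 0) := by
    intro i
    have := ones_succ x (i + t) 0
    rw [ones_zero] at this
    simpa using this
  have k1 := e i
  have k2 := e j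
  rw [e', e'', h1, show i + t + 1 + r = i + (t + 1 + r) by ring, h4] at k1
  rw [e', e'', h2, show j + t + 1 + r = j + (t + 1 + r) by ring, h5] at k2
  have := hb (i + t) (j + t) (1 + (r + 1))
  rw [k1, k2, hmid] at this
  simp at this

theorem bal_card {x : ℕ → Bool} (hb : Bal x) (m : ℕ) :
    (factors x (m + 1)).ncard ≤ (factors x m).ncard + 1 := by
  classical
  set Ab : Bool → Set (Fin m → Bool) := fun b => {w | w ∈ factors x m ∧ Fin.snoc w b ∈ factors x (m + 1)}
    with hAb
  have hsub : factors x (m + 1) ⊆ ((fun w : Fin m → Bool => (Fin.snoc w true : Fin (m + 1) → Bool)) '' Ab true) ∪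
      ((fun w : Fin m → Bool => (Fin.snoc w false : Fin (m + 1) → Bool)) '' Ab false) := by
    intro w hw
    have hr : res m w ∈ factors x m := by rw [← res_image]; exact ⟨w, hw, rfl⟩
    have hs : ∀ b, w (Fin.last m) = b → (Fin.snoc (res m w) b : Fin (m + 1) → Bool) = w := by
      intro b hb
      rw [← hb]
      funext j
      refine Fin.lastCases ?_ (fun j => ?_) j
      · simp
      · simp [res]
    rcases hwl : w (Fin.last m) with _ | _
    · right
      exact ⟨res m w, ⟨hr, by rw [hs _ hwl]; exact hw⟩, hs _ hwl⟩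
    · left
      exact ⟨res m w, ⟨hr, by rw [hs _ hwl]; exact hw⟩, hs _ hwl⟩
  have h1 : (factors x (m + 1)).ncard ≤ (Ab true).ncard + (Ab false).ncard := by
    refine (Set.ncard_le_ncard hsub (Set.toFinite _)).trans ((Set.ncard_union_le _ _).trans ?_)
    exact Nat.add_le_add (Set.ncard_image_le (Set.toFinite _)) (Set.ncard_image_le (Set.toFinite _))
  have h2 : (Ab true ∪ Ab false).ncard + (Ab true ∩ Ab false).ncard = (Ab true).ncard + (Ab false).ncard :=
    Set.ncard_union_add_ncard_inter _ _ (Set.toFinite _) (Set.toFinite _)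
  have h3 : (Ab true ∪ Ab false).ncard ≤ (factors x m).ncard := by
    apply Set.ncard_le_ncard _ (factors_finite x m)
    rintro w (hw | hw)
    · exact hw.1
    · exact hw.1
  have h4 : (Ab true ∩ Ab false).ncard ≤ 1 := by
    rw [Set.ncard_le_one_iff]
    rintro u v ⟨⟨_, hu1⟩, ⟨_, hu2⟩⟩ ⟨⟨_, hv1⟩, ⟨_, hv2⟩⟩
    by_contra hne
    -- general contradiction
    have key : ∀ u v : Fin m → Bool, (Fin.snoc u true : Fin (m + 1) → Bool) ∈ factors x (m + 1) →
        (Fin.snoc u false : Fin (m + 1) → Bool) ∈ factors x (m + 1) →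
        (Fin.snoc v true : Fin (m + 1) → Bool) ∈ factors x (m + 1) →
        (Fin.snoc v false : Fin (m + 1) → Bool) ∈ factors x (m + 1) →
        ∀ t : ℕ, ∀ ht : t < m, u ⟨t, ht⟩ = true → v ⟨t, ht⟩ = false →
        (∀ s : ℕ, ∀ hs : s < m, t < s → u ⟨s, hs⟩ = v ⟨s, hs⟩) → False := by
      intro u v hu1 _ _ hv2 t ht hut hvt hrest
      obtain ⟨i, hi⟩ := hu1
      obtain ⟨j, hj⟩ := hv2
      have a1 : ∀ s (hs : s < m), x (i + s) = u ⟨s, hs⟩ := by
        intro s hs
        have := congrFun hi (Fin.castSucc ⟨s, hs⟩)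
        rw [Fin.snoc_castSucc] at this
        exact this.symm
      have a2 : x (i + m) = true := by
        have := congrFun hi (Fin.last m)
        rw [Fin.snoc_last] at this
        exact this.symm
      have b1 : ∀ s (hs : s < m), x (j + s) = v ⟨s, hs⟩ := by
        intro s hs
        have := congrFun hj (Fin.castSucc ⟨s, hs⟩)
        rw [Fin.snoc_castSucc] at this
        exact this.symm
      have b2 : x (j + m) = false := by
        have := congrFun hj (Fin.last m)
        rw [Fin.snoc_last] at this
        exact this.symm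
      exact bal_contra hb ht (by rw [a1 t ht]; exact hut) (by rw [b1 t ht]; exact hvt)
        (fun s h1 h2 => by rw [a1 s h2, b1 s h2]; exact hrest s h2 h1) a2 b2
    obtain ⟨t, ht, hd, hrest⟩ : ∃ t, t < m ∧
        (fun s => if h : s < m then u ⟨s, h⟩ else false) t ≠ (fun s => if h : s < m then v ⟨s, h⟩ else false) t ∧
        ∀ s, t < s → s < m → (fun s => if h : s < m then u ⟨s, h⟩ else false) s =
          (fun s => if h : s < m then v ⟨s, h⟩ else false) s := by
      apply last_diff
      by_contra hcon
      push Not at hcon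
      apply hne
      funext s
      have := hcon s s.2
      simpa using this
    simp only [dif_pos ht] at hd
    have hrest' : ∀ s (hs : s < m), t < s → u ⟨s, hs⟩ = v ⟨s, hs⟩ := by
      intro s hs hts
      have := hrest s hts hs
      simpa [hs] using this
    rcases hut : u ⟨t, ht⟩ with _ | _ <;> rcases hvt : v ⟨t, ht⟩ with _ | _
    · exact hd (by rw [hut, hvt])
    · exact key v u hv1 hv2 hu1 hu2 t ht hvt hut (fun s hs h => (hrest' s hs h).symm)
    · exact key u v hu1 hu2 hv1 hv2 t ht hut hvt hrest'
    · exact hd (by rw [hut, hvt])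
  omega

theorem sturmian_of_bal {x : ℕ → Bool} (hx : Aperiodic x) (hb : Bal x) : Sturmian x := by
  refine ⟨hx, fun m => le_antisymm ?_ (morse_hedlund hx m)⟩
  induction m with
  | zero =>
    have : (factors x 0).ncard ≤ 1 := by
      rw [Set.ncard_le_one_iff]
      intro a b _ _
      funext j
      exact j.elim0
    omega
  | succ m ih => have := bal_card hb m; omega

end Pool.Agent.X181.AC
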