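import Pool.Agent.X181.AC.Defs

namespace Pool.Agent.X181.AC

theorem ones_zero (x : ℕ → Bool) (i : ℕ) : ones x i 0 = 0 := by simp [ones]

theorem ones_succ (x : ℕ → Bool) (i m : ℕ) :
    ones x i (m + 1) = ones x i m + (if x (i + m) = true then 1 else 0) := by
  unfold ones
  rw [Finset.range_add_one, Finset.filter_insert]
  split_ifs with h
  · rw [Finset.card_insert_of_notMem (by simp)]
  · rfl

theorem ones_add (x : ℕ → Bool) (i a b : ℕ) : ones x i (a + b) = ones x i a + ones x (i + a) b := by
  induction b with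
  | zero => simp [ones_zero]
  | succ b ih =>
    rw [← Nat.add_assoc, ones_succ, ones_succ, ih, Nat.add_assoc i a b]
    omega

theorem ones_le (x : ℕ → Bool) (i m : ℕ) : ones x i m ≤ m := by
  unfold ones
  refine (Finset.card_filter_le _ _).trans (by simp)

theorem ones_mul_le (x : ℕ → Bool) (M a u : ℕ) (h : ∀ i, M ≤ i → ones x i a ≤ u) (b : ℕ) :
    ∀ i, M ≤ i → ones x i (a * b) ≤ b * u := by
  induction b with
  | zero => intro i _; simp [ones_zero]
  | succ b ih =>
    intro i hi
    rw [Nat.mul_succ, ones_add]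
    have h1 := ih i hi
    have h2 := h (i + a * b) (by omega)
    have : (b + 1) * u = b * u + u := by ring
    omega

theorem ones_mul_ge (x : ℕ → Bool) (M a u : ℕ) (h : ∀ i, M ≤ i → u ≤ ones x i a) (b : ℕ) :
    ∀ i, M ≤ i → b * u ≤ ones x i (a * b) := by
  induction b with
  | zero => intro i _; simp
  | succ b ih =>
    intro i hi
    rw [Nat.mul_succ, ones_add]
    have h1 := ih i hi
    have h2 := h (i + a * b) (by omega)
    have : (b + 1) * u = b * u + u := by ring
    omega

/-- the infinite word -/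
def x (i : ℕ) : Bool := (A i).getD i false

theorem pfx_A {k l : ℕ} (h : k ≤ l) : A k <+: A l := by
  obtain ⟨d, rfl⟩ := Nat.exists_eq_add_of_le h
  exact (good_A k d).pfx

theorem getD_pfx {u w : List Bool} (h : u <+: w) {i : ℕ} (hi : i < u.length) :
    w.getD i false = u.getD i false := by
  obtain ⟨t, rfl⟩ := h
  rw [List.getD_append _ _ _ _ hi]

theorem x_eq {i l : ℕ} (h : i < n l) : x i = (A l).getD i false := by
  unfold x
  rcases le_total i l with h1 | h1
  · rw [getD_pfx (pfx_A h1) (lt_n i)]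
  · rw [getD_pfx (pfx_A h1) h]

theorem H_succ (w : List Bool) (j : ℕ) (hj : j < w.length) :
    H w (j + 1) = H w j + (if w.getD j false = true then 1 else 0) := by
  unfold H
  rw [List.take_succ_eq_append_getElem hj, List.count_append, List.getD_eq_getElem _ _ hj]
  congr 1
  rw [List.count_singleton]
  simp

theorem H_ones (l i m : ℕ) (h : i + m ≤ n l) : H (A l) (i + m) = H (A l) i + ones x i m := by
  induction m with
  | zero => simp [ones_zero]
  | succ m ih =>
    rw [← Nat.add_assoc, H_succ _ _ (by show i + m < n l; omega), ih (by omega), ones_succ,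
      x_eq (show i + m < n l by omega)]
    omega

theorem exists_level (k m : ℕ) : ∃ d, m ≤ n (k + d) := ⟨m, by have := lt_n (k + m); omega⟩

theorem x_upper (k i : ℕ) : ones x i (n k) ≤ N k := by
  obtain ⟨d, hd⟩ := exists_level k (i + n k)
  have h1 := good_upper (good_A k d) i hd
  rw [H_ones _ _ _ hd] at h1
  omega

theorem x_lower (k i : ℕ) : N k ≤ ones x i (n k + 1) := by
  obtain ⟨d, hd⟩ := exists_level k (i + (n k + 1))
  have h1 := good_lower (good_A k d) i hd
  have h2 := H_ones _ _ _ hd
  rw [show i + n k + 1 = i + (n k + 1) by ring, h2] at h1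
  omega

/-- uniform recurrence -/
def UnifRec (x : ℕ → Bool) : Prop :=
  ∀ i m : ℕ, ∃ K : ℕ, ∀ j : ℕ, ∃ p : ℕ, j ≤ p ∧ p ≤ j + K ∧ ∀ s < m, x (p + s) = x (i + s)

theorem x_unifRec : UnifRec x := by
  intro i m
  have hk : i + m ≤ n (i + m) := (lt_n _).le
  set k := i + m with hkdef
  refine ⟨n k + i, fun j => ?_⟩
  obtain ⟨d, hd⟩ := exists_level k (j + n k)
  obtain ⟨p, hp1, hp2, hp3⟩ := good_occ (good_A k d) j hd
  refine ⟨p + i, by omega, by omega, fun s hs => ?_⟩
  have hlen : p + n k ≤ n (k + d) := by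
    have := hp3.length_le
    rw [List.length_drop] at this
    have hnp : 0 < n k := lt_of_le_of_lt (Nat.zero_le _) (lt_n k)
    change n k ≤ n (k + d) - p at this
    omega
  have h1 : x (p + i + s) = (A (k + d)).getD (p + i + s) false := x_eq (by omega)
  have h2 : x (i + s) = (A k).getD (i + s) false := x_eq (by omega)
  rw [h1, h2, ← getD_pfx hp3 (show i + s < (A k).length by show i + s < n k; omega)]
  rw [List.getD_eq_getElem?_getD, List.getD_eq_getElem?_getD, List.getElem?_drop]
  congr 2
  ring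

/-- not eventually periodic -/
def Aperiodic (x : ℕ → Bool) : Prop :=
  ¬ ∃ p : ℕ, 0 < p ∧ ∃ M : ℕ, ∀ m ≥ M, x (m + p) = x m

theorem x_aperiodic : Aperiodic x := by
  rintro ⟨p, hp, M, hM⟩
  set c := ones x M p with hc
  have hper : ∀ i, M ≤ i → ones x i p = c := by
    intro i hi
    obtain ⟨t, rfl⟩ := Nat.exists_eq_add_of_le hi
    clear hi
    induction t with
    | zero => rfl
    | succ t ih =>
      have e1 : ones x (M + t) (p + 1) = ones x (M + t) p + (if x (M + t + p) = true then 1 else 0) :=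
        ones_succ _ _ _
      have e2 : ones x (M + t) (1 + p) = ones x (M + t) 1 + ones x (M + t + 1) p := ones_add _ _ _ _
      have e3 : ones x (M + t) 1 = (if x (M + t) = true then 1 else 0) := by
        rw [show (1 : ℕ) = 0 + 1 from rfl, ones_succ, ones_zero]; simp
      rw [hM (M + t) (by omega), ih] at e1
      rw [e3, Nat.add_comm 1 p, e1] at e2
      rw [← Nat.add_assoc]
      omega
  have hup : ∀ k, c * n k ≤ p * N k := by
    intro k
    have h1 := ones_mul_le x M (n k) (N k) (fun i _ => x_upper k i) p M le_rfl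
    have h2 := ones_mul_ge x M p c (fun i hi => (hper i hi).ge) (n k) M le_rfl
    rw [Nat.mul_comm p (n k)] at h2
    calc c * n k = n k * c := by ring
      _ ≤ _ := h2.trans h1
  have hlo : ∀ k, p * N k ≤ c * (n k + 1) := by
    intro k
    have h1 := ones_mul_ge x M (n k + 1) (N k) (fun i _ => x_lower k i) p M le_rfl
    have h2 := ones_mul_le x M p c (fun i hi => (hper i hi).le) (n k + 1) M le_rfl
    rw [Nat.mul_comm p (n k + 1)] at h2
    calc p * N k ≤ _ := h1.trans h2
      _ = c * (n k + 1) := by ring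
  -- D_k = p N_k - c n_k in [0,c]
  have hc0 : 0 < c := by
    rcases Nat.eq_zero_or_pos c with h | h
    · exfalso
      have h1 := hlo 0
      rw [h, N_zero] at h1
      omega
    · exact h
  obtain ⟨D, hD⟩ : ∃ D, p * N c = c * n c + D := ⟨p * N c - c * n c, by have := hup c; omega⟩
  have hD1 : D ≤ c := by
    have := hlo c
    have e : c * (n c + 1) = c * n c + c := by ring
    omega
  have e1 : p * N (c + 1) = (c + 2) * (p * N c) := by rw [N_succ]; ring
  have e2 : c * n (c + 1) = (c + 2) * (c * n c) + c := by rw [n_succ]; ring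
  have h3 := hup (c + 1)
  have h4 := hlo (c + 1)
  have e3 : c * (n (c + 1) + 1) = c * n (c + 1) + c := by ring
  rw [e1, hD, e2] at h3
  rw [e1, hD, e3, e2] at h4
  have e4 : (c + 2) * (c * n c + D) = (c + 2) * (c * n c) + (c + 2) * D := by ring
  rw [e4] at h3 h4
  have h5 : c ≤ (c + 2) * D := by omega
  have h6 : (c + 2) * D ≤ c + c := by omega
  have hDpos : 0 < D := by
    rcases Nat.eq_zero_or_pos D with h | h
    · rw [h] at h5; omega
    · exact h
  -- so D = 1 and c + 2 ≤ 2 c ; use the next level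
  have hD2 : D = 1 := by
    by_contra hne
    have : 2 ≤ D := by omega
    have : (c + 2) * 2 ≤ (c + 2) * D := Nat.mul_le_mul_left _ this
    omega
  subst hD2
  -- level c + 1: D' = (c+2) - c = 2
  have f1 : p * N (c + 1) = c * n (c + 1) + 2 := by
    rw [e1, hD, e2]; ring
  have g1 : p * N (c + 1 + 1) = (c + 3) * (p * N (c + 1)) := by rw [N_succ]; ring
  have g2 : c * n (c + 1 + 1) = (c + 3) * (c * n (c + 1)) + c := by rw [n_succ]; ring
  have h7 := hlo (c + 1 + 1)
  have g3 : c * (n (c + 1 + 1) + 1) = c * n (c + 1 + 1) + c := by ring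
  rw [g1, f1, g3, g2] at h7
  have g4 : (c + 3) * (c * n (c + 1) + 2) = (c + 3) * (c * n (c + 1)) + (2 * c + 6) := by ring
  rw [g4] at h7
  omega

/-- factors of a word -/
def factors (x : ℕ → Bool) (m : ℕ) : Set (Fin m → Bool) := {w | ∃ i : ℕ, w = fun j : Fin m => x (i + (j : ℕ))}

/-- Sturmian words -/
def Sturmian (x : ℕ → Bool) : Prop := Aperiodic x ∧ ∀ m : ℕ, (factors x m).ncard = m + 1

theorem x_not_sturmian : ¬ Sturmian x := by
  rintro ⟨_, h⟩
  have h2 := h 2
  have hall : factors x 2 = Set.univ := by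
    ext w
    simp only [Set.mem_univ, iff_true]
    have key : ∀ a b : Bool, ∃ i, x i = a ∧ x (i + 1) = b := by
      intro a b
      cases a <;> cases b
      · exact ⟨2, by rw [x_eq (l := 0) (by rw [n_zero]; norm_num)]; rfl,
          by rw [x_eq (l := 0) (by rw [n_zero]; norm_num)]; rfl⟩
      · exact ⟨3, by rw [x_eq (l := 0) (by rw [n_zero]; norm_num)]; rfl,
          by rw [x_eq (l := 0) (by rw [n_zero]; norm_num)]; rfl⟩
      · exact ⟨1, by rw [x_eq (l := 0) (by rw [n_zero]; norm_num)]; rfl,
          by rw [x_eq (l := 0) (by rw [n_zero]; norm_num)]; rfl⟩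
      · exact ⟨0, by rw [x_eq (l := 0) (by rw [n_zero]; norm_num)]; rfl,
          by rw [x_eq (l := 0) (by rw [n_zero]; norm_num)]; rfl⟩
    obtain ⟨i, h1, h2⟩ := key (w 0) (w 1)
    refine ⟨i, ?_⟩
    funext j
    fin_cases j
    · exact h1.symm
    · exact h2.symm
  rw [hall, Set.ncard_univ] at h2
  simp at h2

end Pool.Agent.X181.AC
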